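import Pool.Agent.Work.MP_c9b226_an.Pompeiu

/-!
# The Cauchy transform of a Dini continuous function is Lipschitz
-/

set_option autoImplicit false

namespace Pool.Agent.Work.MP_c9b226_an

open MeasureTheory Set Filter Topology Metric
open Complex (I exp)
open scoped Real

/-- the Cauchy transform -/
noncomputable def ct (g : ℂ → ℂ) (z : ℂ) : ℂ := (π : ℂ)⁻¹ * ∫ ζ, g ζ / (z - ζ)

theorem volume_ball_eq (r : ℝ) (hr : 0 ≤ r) :
    (volume : Measure ℂ).real (ball 0 r) = π * r ^ 2 := by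
  rw [Measure.real, Complex.volume_ball]
  rw [ENNReal.toReal_mul, ENNReal.toReal_pow, ENNReal.toReal_ofReal hr]
  rw [mul_comm]
  rfl

/-- integrals of radial functions over balls -/
theorem integral_radial {F : ℝ → ℝ} (r : ℝ) :
    ∫ ζ in ball (0 : ℂ) r, F ‖ζ‖ = 2 * π * ∫ t in Ioo 0 r, t * F t := by
  have h1 : ∫ ζ in ball (0 : ℂ) r, F ‖ζ‖ = ∫ ζ : ℂ, (Iio r).indicator F ‖ζ‖ := by
    rw [← integral_indicator measurableSet_ball]
    refine integral_congr_ae (Eventually.of_forall fun ζ => ?_)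
    simp [indicator]
  rw [h1, integral_fun_norm_addHaar (volume : Measure ℂ) ((Iio r).indicator F)]
  rw [Complex.finrank_real_complex, volume_ball_eq 1 zero_le_one]
  have h2 : ∫ y in Ioi (0 : ℝ), y ^ (2 - 1) • (Iio r).indicator F y =
      ∫ t in Ioo 0 r, t * F t := by
    rw [← Ioi_inter_Iio, ← setIntegral_indicator measurableSet_Iio]
    refine integral_congr_ae (Eventually.of_forall fun y => ?_)
    by_cases hy : y ∈ Iio r
    · simp [indicator_of_mem hy]
    · simp [indicator_of_notMem hy]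
  rw [h2]
  simp
  ring

theorem integrableOn_radial {F : ℝ → ℝ} (r : ℝ) (h : IntegrableOn (fun t => t * F t) (Ioo 0 r)) :
    IntegrableOn (fun ζ : ℂ => F ‖ζ‖) (ball 0 r) := by
  have := (integrableOn_fun_norm_addHaar (E := ℂ) (μ := volume) (f := F) (r := r)).2
  rw [Complex.finrank_real_complex] at this
  exact this (by simpa using h)

theorem aesm_radial {F : ℝ → ℝ} (hF0 : ∀ t, 0 ≤ F t) (hFa : AntitoneOn F (Ioi 0)) (z : ℂ) :
    AEStronglyMeasurable (fun ζ => F ‖ζ - z‖) (volume : Measure ℂ) := by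
  have hG : Measurable ((Ioi 0).indicator F) := by
    refine measurable_of_Ioi fun c => ?_
    rcases lt_or_ge c 0 with hc | hc
    · have : (Ioi 0).indicator F ⁻¹' Ioi c = univ := by
        ext t
        simp only [mem_preimage, mem_Ioi, mem_univ, iff_true]
        exact hc.trans_le (indicator_nonneg (fun t _ => hF0 t) t)
      rw [this]
      exact MeasurableSet.univ
    · have h1 : (Ioi 0).indicator F ⁻¹' Ioi c = {t | t ∈ Ioi 0 ∧ c < F t} := by
        ext t
        simp only [mem_preimage, mem_Ioi, mem_ofPred_eq]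
        by_cases ht : t ∈ Ioi (0 : ℝ)
        · rw [indicator_of_mem ht]
          exact ⟨fun h => ⟨ht, h⟩, fun h => h.2⟩
        · rw [indicator_of_notMem ht]
          exact ⟨fun h => absurd h (not_lt.2 hc), fun h => absurd h.1 ht⟩
      rw [h1]
      refine OrdConnected.measurableSet ⟨?_⟩
      rintro x ⟨hx, hx'⟩ y ⟨hy, hy'⟩ t ⟨ht, ht'⟩
      have ht0 : t ∈ Ioi (0 : ℝ) := lt_of_lt_of_le hx ht
      exact ⟨ht0, hy'.trans_le (hFa ht0 hy ht')⟩
  have h2 : Measurable fun ζ : ℂ => (Ioi 0).indicator F ‖ζ - z‖ :=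
    hG.comp (by fun_prop)
  refine h2.aestronglyMeasurable.congr ?_
  have h3 : ∀ᵐ ζ : ℂ, ζ ≠ z := by
    simp [ae_iff, measure_singleton]
  filter_upwards [h3] with ζ hζ
  rw [indicator_of_mem]
  exact norm_pos_iff.2 (sub_ne_zero.2 hζ)

/-- translated radial kernels -/
theorem radial_translate {F : ℝ → ℝ} (hF0 : ∀ t, 0 ≤ F t) (hFa : AntitoneOn F (Ioi 0))
    (hFi : IntegrableOn (fun t => t * F t) (Ioo 0 4)) (z : ℂ) :
    IntegrableOn (fun ζ => F ‖ζ - z‖) (ball 0 2) ∧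
      ∫ ζ in ball (0 : ℂ) 2, F ‖ζ - z‖ ≤ 4 * π * ∫ t in Ioo 0 4, t * F t := by
  have h0 := integrableOn_radial 4 hFi
  have hmp : MeasurePreserving (fun ζ : ℂ => ζ - z) volume volume :=
    measurePreserving_sub_right volume z
  have hpre : (fun ζ : ℂ => ζ - z) ⁻¹' ball 0 4 = ball z 4 := by
    ext ζ
    simp [dist_eq_norm]
  have h1 : IntegrableOn (fun ζ => F ‖ζ - z‖) (ball z 4) := by
    have := (hmp.integrableOn_comp_preimage (f := fun ζ : ℂ => F ‖ζ‖)
      (measurableEmbedding_subRight z) (s := ball 0 4)).2 h0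
    rw [hpre] at this
    exact this
  have h2 : ∫ ζ in ball z 4, F ‖ζ - z‖ = 2 * π * ∫ t in Ioo 0 4, t * F t := by
    rw [← integral_radial, ← hpre]
    exact hmp.setIntegral_preimage_emb (measurableEmbedding_subRight z) (fun ζ => F ‖ζ‖) _
  have h3 : Integrable ((ball z 4).indicator fun ζ => F ‖ζ - z‖) :=
    (integrable_indicator_iff measurableSet_ball).2 h1
  have hle : ∀ ζ ∈ ball (0 : ℂ) 2, F ‖ζ - z‖ ≤
      (ball z 4).indicator (fun ζ => F ‖ζ - z‖) ζ + F 4 := by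
    intro ζ _
    by_cases h : ζ ∈ ball z 4
    · rw [indicator_of_mem h]
      linarith [hF0 4]
    · rw [indicator_of_notMem h, zero_add]
      rw [mem_ball, dist_eq_norm, not_lt] at h
      exact hFa (by norm_num : (0 : ℝ) < 4) (lt_of_lt_of_le (by norm_num) h) h
  have h4 : IntegrableOn (fun ζ => (ball z 4).indicator (fun ζ => F ‖ζ - z‖) ζ + F 4)
      (ball (0 : ℂ) 2) := by
    refine h3.integrableOn.add ?_
    exact integrableOn_const (by rw [Complex.volume_ball]; exact ENNReal.mul_ne_top (by simp) (by simp))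
  have hint : IntegrableOn (fun ζ => F ‖ζ - z‖) (ball 0 2) := by
    refine Integrable.mono' h4 (aesm_radial hF0 hFa z).restrict ?_
    refine (ae_restrict_iff' measurableSet_ball).2 (Eventually.of_forall fun ζ hζ => ?_)
    rw [Real.norm_of_nonneg (hF0 _)]
    exact hle ζ hζ
  refine ⟨hint, ?_⟩
  have h5 : F 4 * 8 ≤ ∫ t in Ioo 0 4, t * F t := by
    have h6 : ∫ t in Ioo (0 : ℝ) 4, t * F 4 = F 4 * 8 := by
      rw [← integral_Ioc_eq_integral_Ioo, ← intervalIntegral.integral_of_le (by norm_num),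
        intervalIntegral.integral_mul_const, integral_id]
      ring
    rw [← h6]
    refine setIntegral_mono_on ?_ hFi measurableSet_Ioo ?_
    · exact (Continuous.integrableOn_Icc (by fun_prop)).mono_set Ioo_subset_Icc_self
    · intro t ht
      exact mul_le_mul_of_nonneg_left (hFa ht.1 (by norm_num : (0 : ℝ) < 4) ht.2.le) ht.1.le
  calc ∫ ζ in ball (0 : ℂ) 2, F ‖ζ - z‖
      ≤ ∫ ζ in ball (0 : ℂ) 2, ((ball z 4).indicator (fun ζ => F ‖ζ - z‖) ζ + F 4) :=
        setIntegral_mono_on hint h4 measurableSet_ball hle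
    _ = (∫ ζ in ball (0 : ℂ) 2, (ball z 4).indicator (fun ζ => F ‖ζ - z‖) ζ) +
        F 4 * (π * 2 ^ 2) := by
        rw [integral_add h3.integrableOn (integrableOn_const (by
          rw [Complex.volume_ball]; exact ENNReal.mul_ne_top (by simp) (by simp)))]
        rw [setIntegral_const, volume_ball_eq 2 (by norm_num), smul_eq_mul, mul_comm (F 4)]
    _ ≤ (∫ ζ in ball z 4, F ‖ζ - z‖) + F 4 * (π * 2 ^ 2) := by
        gcongr
        have h7 : ∫ ζ in ball z 4, F ‖ζ - z‖ =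
            ∫ ζ, (ball z 4).indicator (fun ζ => F ‖ζ - z‖) ζ :=
          (integral_indicator measurableSet_ball).symm
        rw [h7]
        refine setIntegral_le_integral h3 (Eventually.of_forall fun ζ => ?_)
        exact indicator_nonneg (fun ζ _ => hF0 _) ζ
    _ ≤ 4 * π * ∫ t in Ioo 0 4, t * F t := by
        rw [h2]
        nlinarith [Real.pi_pos, mul_le_mul_of_nonneg_left h5 Real.pi_pos.le,
          mul_nonneg Real.pi_pos.le (hF0 4)]

theorem integrableOn_inv_norm (z : ℂ) : IntegrableOn (fun ζ : ℂ => ‖ζ - z‖⁻¹) (ball 0 2) ∧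
    ∫ ζ in ball (0 : ℂ) 2, ‖ζ - z‖⁻¹ ≤ 16 * π := by
  have h1 : IntegrableOn (fun t : ℝ => t * |t|⁻¹) (Ioo 0 4) := by
    refine (integrableOn_const (C := (1 : ℝ)) (by simp)).congr_fun ?_ measurableSet_Ioo
    intro t ht
    simp only
    rw [abs_of_pos ht.1, mul_inv_cancel₀ ht.1.ne']
  have h2 : ∫ t in Ioo (0 : ℝ) 4, t * |t|⁻¹ = 4 := by
    rw [setIntegral_congr_fun (g := fun _ => (1 : ℝ)) measurableSet_Ioo]
    · simp
    · intro t ht
      simp only
      rw [abs_of_pos ht.1, mul_inv_cancel₀ ht.1.ne']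
  have h3 := radial_translate (F := fun t => |t|⁻¹) (fun t => by positivity) (by
    intro s hs t ht hst
    have hs' : 0 < s := hs
    have ht' : 0 < t := ht
    simp only
    rw [abs_of_pos hs', abs_of_pos ht']
    gcongr) h1 z
  simp only [abs_norm] at h3
  rw [h2] at h3
  refine ⟨h3.1, h3.2.trans (le_of_eq (by ring))⟩

/-- the integrand of the Cauchy transform is integrable -/
theorem integrable_kernel {g : ℂ → ℂ} (hg : AEStronglyMeasurable g volume) {M : ℝ}
    (hM : ∀ ζ, ‖g ζ‖ ≤ M) (hs : ∀ ζ, ζ ∉ ball (0 : ℂ) 2 → g ζ = 0) (z : ℂ) :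
    Integrable fun ζ => g ζ / (z - ζ) := by
  have h1 := (integrableOn_inv_norm z).1
  have h2 : Integrable ((ball (0 : ℂ) 2).indicator fun ζ => M * ‖ζ - z‖⁻¹) :=
    (integrable_indicator_iff measurableSet_ball).2 (h1.const_mul M)
  refine h2.mono' ?_ (Eventually.of_forall fun ζ => ?_)
  · simp only [div_eq_mul_inv]
    exact hg.mul (by fun_prop : Measurable fun ζ : ℂ => (z - ζ)⁻¹).aestronglyMeasurable
  · by_cases hζ : ζ ∈ ball (0 : ℂ) 2
    · rw [indicator_of_mem hζ, norm_div, div_eq_mul_inv, norm_sub_rev]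
      exact mul_le_mul_of_nonneg_right (hM ζ) (by positivity)
    · rw [indicator_of_notMem hζ, hs ζ hζ]
      simp

/-- the bound for one Cauchy integral -/
theorem norm_ct_le {g : ℂ → ℂ} {M : ℝ} (hM : ∀ ζ, ‖g ζ‖ ≤ M)
    (hs : ∀ ζ, ζ ∉ ball (0 : ℂ) 2 → g ζ = 0) (z : ℂ) : ‖ct g z‖ ≤ 16 * M := by
  have hM0 : 0 ≤ M := (norm_nonneg _).trans (hM 0)
  have h1 := integrableOn_inv_norm z
  have h2 : ‖∫ ζ, g ζ / (z - ζ)‖ ≤ ∫ ζ, (ball (0 : ℂ) 2).indicator (fun ζ => M * ‖ζ - z‖⁻¹) ζ := by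
    refine norm_integral_le_of_norm_le ((integrable_indicator_iff measurableSet_ball).2
      (h1.1.const_mul M)) (Eventually.of_forall fun ζ => ?_)
    by_cases hζ : ζ ∈ ball (0 : ℂ) 2
    · rw [indicator_of_mem hζ, norm_div, div_eq_mul_inv, norm_sub_rev]
      exact mul_le_mul_of_nonneg_right (hM ζ) (by positivity)
    · rw [indicator_of_notMem hζ, hs ζ hζ]
      simp
  rw [integral_indicator measurableSet_ball, integral_const_mul] at h2
  rw [ct, norm_mul, norm_inv, Complex.norm_real, Real.norm_of_nonneg Real.pi_pos.le]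
  calc π⁻¹ * ‖∫ ζ, g ζ / (z - ζ)‖ ≤ π⁻¹ * (M * (16 * π)) := by
        gcongr
        exact h2.trans (mul_le_mul_of_nonneg_left h1.2 hM0)
    _ = 16 * M := by
        field_simp

/-- the kernel estimate -/
theorem kernel_le {κ : ℝ → ℝ} (hκ0 : ∀ t, 0 ≤ κ t) (hκa : AntitoneOn κ (Ioi 0)) {z w ζ : ℂ}
    (h1 : ζ ≠ z) (h2 : ζ ≠ w) :
    κ ‖ζ - z‖ / ‖ζ - w‖ ≤ κ ‖ζ - z‖ / ‖ζ - z‖ + κ ‖ζ - w‖ / ‖ζ - w‖ := by
  have p1 : 0 < ‖ζ - z‖ := norm_pos_iff.2 (sub_ne_zero.2 h1)
  have p2 : 0 < ‖ζ - w‖ := norm_pos_iff.2 (sub_ne_zero.2 h2)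
  have q1 : 0 ≤ κ ‖ζ - z‖ / ‖ζ - z‖ := div_nonneg (hκ0 _) p1.le
  have q2 : 0 ≤ κ ‖ζ - w‖ / ‖ζ - w‖ := div_nonneg (hκ0 _) p2.le
  rcases le_total ‖ζ - z‖ ‖ζ - w‖ with h | h
  · have : κ ‖ζ - z‖ / ‖ζ - w‖ ≤ κ ‖ζ - z‖ / ‖ζ - z‖ :=
      div_le_div_of_nonneg_left (hκ0 _) p1 h
    linarith
  · have : κ ‖ζ - z‖ / ‖ζ - w‖ ≤ κ ‖ζ - w‖ / ‖ζ - w‖ :=
      div_le_div_of_nonneg_right (hκa p2 p1 h) p2.le
    linarith

/-- an auxiliary cutoff of the conjugation -/
noncomputable def cutConj (ζ : ℂ) : ℂ :=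
  (starRingEnd ℂ) ζ * (((⟨1, 3 / 2, by norm_num, by norm_num⟩ : ContDiffBump (0 : ℂ)) ζ : ℝ) : ℂ)

theorem contDiff_cutConj : ContDiff ℝ 1 cutConj := by
  unfold cutConj
  refine (Complex.conjCLE.contDiff).mul ?_
  exact Complex.ofRealCLM.contDiff.comp (ContDiffBump.contDiff _)

theorem cutConj_zero {ζ : ℂ} (h : 3 / 2 ≤ ‖ζ‖) : cutConj ζ = 0 := by
  unfold cutConj
  rw [ContDiffBump.zero_of_le_dist]
  · simp
  · simpa [dist_eq_norm] using h

theorem hasCompactSupport_cutConj : HasCompactSupport cutConj := by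
  refine HasCompactSupport.of_support_subset_isCompact (isCompact_closedBall (0 : ℂ) (3 / 2)) ?_
  intro ζ hζ
  by_contra h
  rw [mem_closedBall_zero_iff, not_le] at h
  exact hζ (cutConj_zero h.le)

theorem dbar_cutConj_one {ζ : ℂ} (h : ‖ζ‖ < 1) : dbar cutConj ζ = 1 := by
  have h1 : cutConj =ᶠ[𝓝 ζ] fun ζ => (starRingEnd ℂ) ζ := by
    filter_upwards [(isOpen_lt continuous_norm continuous_const).mem_nhds h] with v hv
    unfold cutConj
    rw [ContDiffBump.one_of_mem_closedBall]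
    · simp
    · rw [mem_closedBall_zero_iff]
      exact le_of_lt hv
  have h2 : fderiv ℝ (fun ζ : ℂ => (starRingEnd ℂ) ζ) ζ =
      (Complex.conjCLE : ℂ →L[ℝ] ℂ) := (Complex.conjCLE.hasFDerivAt (x := ζ)).fderiv
  unfold dbar
  rw [h1.fderiv_eq, h2]
  simp

theorem dbar_cutConj_zero {ζ : ℂ} (h : ζ ∉ ball (0 : ℂ) 2) : dbar cutConj ζ = 0 := by
  rw [mem_ball_zero_iff, not_lt] at h
  have h1 : cutConj =ᶠ[𝓝 ζ] fun _ => 0 := by
    have h3 : (3 / 2 : ℝ) < ‖ζ‖ := by linarith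
    filter_upwards [(isOpen_lt continuous_const continuous_norm).mem_nhds h3] with v hv
    exact cutConj_zero (le_of_lt hv)
  unfold dbar
  rw [h1.fderiv_eq]
  simp

theorem continuous_dbar {φ : ℂ → ℂ} (hφ : ContDiff ℝ 1 φ) : Continuous (dbar φ) := by
  have h := hφ.continuous_fderiv one_ne_zero
  unfold dbar
  exact ((h.clm_apply continuous_const).add
    (continuous_const.mul (h.clm_apply continuous_const))).div_const 2

theorem hasCompactSupport_dbar {φ : ℂ → ℂ} (hc : HasCompactSupport φ) :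
    HasCompactSupport (dbar φ) := by
  refine (hc.fderiv (𝕜 := ℝ)).mono ?_
  intro ζ hζ h
  apply hζ
  unfold dbar
  have h' : fderiv ℝ φ ζ = 0 := by simpa using h
  rw [h']
  simp

end Pool.Agent.Work.MP_c9b226_an
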