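import Mathlib

/-!
# Conformally removable sets
-/

set_option autoImplicit false

namespace Pool.Agent.Work.MP_c9b226_an

/-- `K` is conformally removable: every homeomorphism of the plane onto itself that is holomorphic
off `K` is holomorphic on the plane -/
def CHRemovable (K : Set ℂ) : Prop :=
  ∀ f : ℂ ≃ₜ ℂ, DifferentiableOn ℂ (⇑f) Kᶜ → Differentiable ℂ (⇑f)

end Pool.Agent.Work.MP_c9b226_an
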