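import Pool.Agent.Work.MP_c9b226_an.CT

/-!
# The Cauchy transform of a Dini continuous function is Lipschitz, second part
-/

set_option autoImplicit false

namespace Pool.Agent.Work.MP_c9b226_an

open MeasureTheory Set Filter Topology Metric
open Complex (I exp)
open scoped Real

theorem exists_bounds : ∃ M1 L1 : ℝ, 0 ≤ M1 ∧ 0 ≤ L1 ∧ (∀ ζ, ‖dbar cutConj ζ‖ ≤ M1) ∧
    ∀ z w, ‖cutConj z - cutConj w‖ ≤ L1 * ‖z - w‖ := by
  obtain ⟨M1, hM1⟩ := (hasCompactSupport_dbar hasCompactSupport_cutConj).exists_bound_of_continuous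
    (continuous_dbar contDiff_cutConj)
  obtain ⟨C, hC⟩ := ContDiff.lipschitzWith_of_hasCompactSupport hasCompactSupport_cutConj
    contDiff_cutConj one_ne_zero
  refine ⟨M1, C, (norm_nonneg _).trans (hM1 0), C.2, hM1, fun z w => ?_⟩
  exact hC.norm_sub_le z w

theorem dini_div {κ : ℝ → ℝ} (hκ0 : ∀ t, 0 ≤ κ t) (hκa : AntitoneOn κ (Ioi 0))
    (hκi : IntegrableOn κ (Ioo 0 4)) (z : ℂ) :
    IntegrableOn (fun ζ => κ ‖ζ - z‖ / ‖ζ - z‖) (ball (0 : ℂ) 2) ∧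
      ∫ ζ in ball (0 : ℂ) 2, κ ‖ζ - z‖ / ‖ζ - z‖ ≤ 4 * π * ∫ t in Ioo 0 4, κ t := by
  have he : EqOn (fun t : ℝ => t * (κ t / |t|)) κ (Ioo 0 4) := by
    intro t ht
    simp only
    rw [abs_of_pos ht.1]
    field_simp [ht.1.ne']
  have h := radial_translate (F := fun t => κ t / |t|)
    (fun t => div_nonneg (hκ0 t) (abs_nonneg t)) (by
      intro s hs t ht hst
      have hs' : 0 < s := hs
      have ht' : 0 < t := ht
      simp only
      rw [abs_of_pos hs', abs_of_pos ht']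
      exact div_le_div₀ (hκ0 s) (hκa hs ht hst) hs' hst)
    (hκi.congr_fun he.symm measurableSet_Ioo) z
  rw [setIntegral_congr_fun measurableSet_Ioo he] at h
  simpa only [abs_norm] using h

theorem ct_lipschitz : ∃ K : ℝ, 0 < K ∧ ∀ (g : ℂ → ℂ) (κ : ℝ → ℝ) (M : ℝ), Continuous g →
    (∀ ζ, ‖g ζ‖ ≤ M) → (∀ ζ : ℂ, 3 / 4 < ‖ζ‖ → g ζ = 0) → (∀ t, 0 ≤ κ t) →
    AntitoneOn κ (Ioi 0) → IntegrableOn κ (Ioo 0 4) →
    (∀ z w, z ≠ w → ‖g z - g w‖ ≤ κ ‖z - w‖ * ‖z - w‖) →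
    ∀ z w, ‖ct g z - ct g w‖ ≤ K * ((∫ t in Ioo 0 4, κ t) + M) * ‖z - w‖ := by
  obtain ⟨M1, L1, hM1, hL1, hb1, hl1⟩ := exists_bounds
  refine ⟨8 + 128 * M1 + L1, by positivity, ?_⟩
  intro g κ M hg hM hs hκ0 hκa hκi hmod z w
  rcases eq_or_ne z w with rfl | hzw
  · simp
  have hM0 : 0 ≤ M := (norm_nonneg _).trans (hM 0)
  set m1 := dbar cutConj with hm1
  have hm1c : Continuous m1 := continuous_dbar contDiff_cutConj
  have hs2 : ∀ ζ, ζ ∉ ball (0 : ℂ) 2 → g ζ = 0 := by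
    intro ζ hζ
    rw [mem_ball_zero_iff, not_lt] at hζ
    exact hs ζ (by linarith)
  set c : ℝ := 4 * M * M1 with hc
  have hc0 : 0 ≤ c := by positivity
  set κ2 : ℝ → ℝ := fun t => κ t + c with hκ2
  have hκ20 : ∀ t, 0 ≤ κ2 t := fun t => add_nonneg (hκ0 t) hc0
  have hκ2a : AntitoneOn κ2 (Ioi 0) := fun s hs t ht hst => add_le_add_left (hκa hs ht hst) c
  have hκ2i : IntegrableOn κ2 (Ioo 0 4) := hκi.add (integrableOn_const (by simp))
  have hκ2v : ∫ t in Ioo 0 4, κ2 t = (∫ t in Ioo 0 4, κ t) + 4 * c := by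
    rw [hκ2, integral_add hκi (integrableOn_const (by simp))]
    simp
  -- the modified density
  have hG0 : ∀ ζ, ζ ∉ ball (0 : ℂ) 2 → g ζ - g z * m1 ζ = 0 := by
    intro ζ hζ
    rw [hs2 ζ hζ, hm1, dbar_cutConj_zero hζ]
    ring
  have hGk : ∀ ζ, ζ ≠ z → ‖g ζ - g z * m1 ζ‖ ≤ κ2 ‖ζ - z‖ * ‖ζ - z‖ := by
    intro ζ hζ
    rcases lt_or_ge ‖ζ‖ 1 with h1 | h1
    · rw [hm1, dbar_cutConj_one h1, mul_one]
      refine (hmod ζ z hζ).trans ?_
      exact mul_le_mul_of_nonneg_right (by simp only [hκ2]; linarith) (norm_nonneg _)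
    · rw [hs ζ (by linarith), zero_sub, norm_neg, norm_mul]
      by_cases hz : g z = 0
      · rw [hz, norm_zero, zero_mul]
        exact mul_nonneg (hκ20 _) (norm_nonneg _)
      · have hz' : ‖z‖ ≤ 3 / 4 := by
          by_contra h
          exact hz (hs z (not_le.1 h))
        have h2 : (1 : ℝ) / 4 ≤ ‖ζ - z‖ := by
          have := norm_sub_norm_le ζ z
          linarith
        calc ‖g z‖ * ‖m1 ζ‖ ≤ M * M1 := by
              gcongr
              · exact hM z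
              · exact hb1 ζ
          _ ≤ c * ‖ζ - z‖ := by
              rw [hc]
              nlinarith [mul_nonneg hM0 hM1]
          _ ≤ κ2 ‖ζ - z‖ * ‖ζ - z‖ := by
              refine mul_le_mul_of_nonneg_right ?_ (norm_nonneg _)
              simp only [hκ2]
              linarith [hκ0 ‖ζ - z‖]
  have hGc : Continuous fun ζ => g ζ - g z * m1 ζ := hg.sub (continuous_const.mul hm1c)
  have hGb : ∀ ζ, ‖g ζ - g z * m1 ζ‖ ≤ M + M * M1 := by
    intro ζ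
    refine (norm_sub_le _ _).trans ?_
    rw [norm_mul]
    gcongr
    · exact hM ζ
    · exact hM z
    · exact hb1 ζ
  have ig : ∀ v : ℂ, Integrable fun ζ => g ζ / (v - ζ) := fun v =>
    integrable_kernel hg.aestronglyMeasurable hM hs2 v
  have im : ∀ v : ℂ, Integrable fun ζ => m1 ζ / (v - ζ) := fun v =>
    integrable_kernel hm1c.aestronglyMeasurable hb1 (fun ζ hζ => dbar_cutConj_zero hζ) v
  have iG : ∀ v : ℂ, Integrable fun ζ => (g ζ - g z * m1 ζ) / (v - ζ) := fun v =>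
    integrable_kernel hGc.aestronglyMeasurable hGb hG0 v
  have hsplit : ∀ v : ℂ, ∫ ζ, g ζ / (v - ζ) =
      (∫ ζ, (g ζ - g z * m1 ζ) / (v - ζ)) + g z * (π * cutConj v) := by
    intro v
    rw [← pompeiu contDiff_cutConj hasCompactSupport_cutConj v, ← integral_const_mul,
      ← integral_add (iG v) ((im v).const_mul _)]
    refine integral_congr_ae (Eventually.of_forall fun ζ => ?_)
    simp only [hm1]
    ring
  have hpi : (π : ℂ) ≠ 0 := by exact_mod_cast Real.pi_ne_zero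
  have hmain : ct g z - ct g w = (π : ℂ)⁻¹ *
      (∫ ζ, ((g ζ - g z * m1 ζ) / (z - ζ) - (g ζ - g z * m1 ζ) / (w - ζ))) +
      g z * (cutConj z - cutConj w) := by
    rw [integral_sub (iG z) (iG w), ct, ct, hsplit z, hsplit w]
    field_simp
    ring
  have hne : ∀ᵐ ζ : ℂ, ζ ≠ z ∧ ζ ≠ w := by
    have h1 : ∀ᵐ ζ : ℂ, ζ ≠ z := by simp [ae_iff, measure_singleton]
    have h2 : ∀ᵐ ζ : ℂ, ζ ≠ w := by simp [ae_iff, measure_singleton]
    exact h1.and h2
  have d1 := dini_div hκ20 hκ2a hκ2i z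
  have d2 := dini_div hκ20 hκ2a hκ2i w
  have hI : ‖∫ ζ, ((g ζ - g z * m1 ζ) / (z - ζ) - (g ζ - g z * m1 ζ) / (w - ζ))‖ ≤
      ∫ ζ, (ball (0 : ℂ) 2).indicator
        (fun ζ => ‖z - w‖ * (κ2 ‖ζ - z‖ / ‖ζ - z‖ + κ2 ‖ζ - w‖ / ‖ζ - w‖)) ζ := by
    refine norm_integral_le_of_norm_le ((integrable_indicator_iff measurableSet_ball).2
      ((d1.1.add d2.1).const_mul _)) ?_
    filter_upwards [hne] with ζ hζ
    by_cases hζ2 : ζ ∈ ball (0 : ℂ) 2
    · rw [indicator_of_mem hζ2]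
      have hz1 : z - ζ ≠ 0 := sub_ne_zero.2 hζ.1.symm
      have hw1 : w - ζ ≠ 0 := sub_ne_zero.2 hζ.2.symm
      have h1 : (g ζ - g z * m1 ζ) / (z - ζ) - (g ζ - g z * m1 ζ) / (w - ζ) =
          (g ζ - g z * m1 ζ) * (w - z) / ((z - ζ) * (w - ζ)) := by
        field_simp
        ring
      rw [h1, norm_div, norm_mul, norm_mul, norm_sub_rev w z, norm_sub_rev z ζ,
        norm_sub_rev w ζ]
      have p1 : 0 < ‖ζ - z‖ := norm_pos_iff.2 (sub_ne_zero.2 hζ.1)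
      have p2 : 0 < ‖ζ - w‖ := norm_pos_iff.2 (sub_ne_zero.2 hζ.2)
      have h2 : ‖g ζ - g z * m1 ζ‖ * ‖z - w‖ / (‖ζ - z‖ * ‖ζ - w‖) ≤
          ‖z - w‖ * (κ2 ‖ζ - z‖ / ‖ζ - w‖) := by
        rw [div_le_iff₀ (mul_pos p1 p2)]
        have h3 := mul_le_mul_of_nonneg_right (hGk ζ hζ.1) (norm_nonneg (z - w))
        have h4 : ‖z - w‖ * (κ2 ‖ζ - z‖ / ‖ζ - w‖) * (‖ζ - z‖ * ‖ζ - w‖) =
            κ2 ‖ζ - z‖ * ‖ζ - z‖ * ‖z - w‖ := by
          field_simp
        rw [h4]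
        exact h3
      exact h2.trans (mul_le_mul_of_nonneg_left (kernel_le hκ20 hκ2a hζ.1 hζ.2) (norm_nonneg _))
    · rw [indicator_of_notMem hζ2, hG0 ζ hζ2]
      simp
  rw [integral_indicator measurableSet_ball, integral_const_mul, integral_add d1.1 d2.1] at hI
  rw [hmain]
  have hκi0 : 0 ≤ ∫ t in Ioo 0 4, κ t := setIntegral_nonneg measurableSet_Ioo fun t _ => hκ0 t
  calc ‖(π : ℂ)⁻¹ * (∫ ζ, ((g ζ - g z * m1 ζ) / (z - ζ) - (g ζ - g z * m1 ζ) / (w - ζ))) +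
      g z * (cutConj z - cutConj w)‖
      ≤ π⁻¹ * (‖z - w‖ * (4 * π * (∫ t in Ioo 0 4, κ2 t) + 4 * π * (∫ t in Ioo 0 4, κ2 t))) +
        M * (L1 * ‖z - w‖) := by
        refine (norm_add_le _ _).trans ?_
        rw [norm_mul, norm_mul, norm_inv, Complex.norm_real, Real.norm_of_nonneg Real.pi_pos.le]
        gcongr
        · refine hI.trans (mul_le_mul_of_nonneg_left (add_le_add d1.2 d2.2) (norm_nonneg _))
        · exact hM z
        · exact hl1 z w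
    _ = (8 * ((∫ t in Ioo 0 4, κ t) + 4 * c) + M * L1) * ‖z - w‖ := by
        rw [hκ2v]
        field_simp
        ring
    _ ≤ (8 + 128 * M1 + L1) * ((∫ t in Ioo 0 4, κ t) + M) * ‖z - w‖ := by
        refine mul_le_mul_of_nonneg_right ?_ (norm_nonneg _)
        rw [hc]
        have e1 := mul_nonneg hM1 hκi0
        have e2 := mul_nonneg hL1 hκi0
        nlinarith [mul_nonneg hM1 hM0, mul_nonneg hL1 hM0]

end Pool.Agent.Work.MP_c9b226_an
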