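import Pool.Agent.Work.MP_c9b226_an.Lip

/-!
# Localisation
-/

set_option autoImplicit false

namespace Pool.Agent.Work.MP_c9b226_an

open MeasureTheory Set Filter Topology Metric
open Complex (I exp)
open scoped Real

/-- integrals of holomorphic families are holomorphic -/
theorem differentiableOn_integral {α : Type*} [MeasurableSpace α] {μ : Measure α} {U : Set ℂ}
    (hU : IsOpen U) {F : ℂ → α → ℂ} {b : α → ℝ}
    (hm : ∀ z ∈ U, AEStronglyMeasurable (F z) μ)
    (hd : ∀ᵐ a ∂μ, DifferentiableOn ℂ (fun z => F z a) U)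
    (hb : ∀ᵐ a ∂μ, ∀ z ∈ U, ‖F z a‖ ≤ b a) (hi : Integrable b μ) :
    DifferentiableOn ℂ (fun z => ∫ a, F z a ∂μ) U := by
  intro z₀ hz₀
  obtain ⟨R, hR, hRU⟩ := Metric.isOpen_iff.1 hU z₀ hz₀
  set ρ := R / 3 with hρ
  have hρ0 : 0 < ρ := by positivity
  have hsub : ∀ z ∈ ball z₀ ρ, closedBall z ρ ⊆ U := by
    intro z hz w hw
    apply hRU
    rw [mem_ball] at hz ⊢
    rw [mem_closedBall] at hw
    have := dist_triangle w z z₀
    rw [hρ] at hz hw
    linarith
  have hzU : ∀ z ∈ ball z₀ ρ, z ∈ U := fun z hz => hsub z hz (mem_closedBall_self hρ0.le)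
  have hderiv : ∀ᵐ a ∂μ, ∀ z ∈ ball z₀ ρ, ‖deriv (fun z => F z a) z‖ ≤ b a / ρ := by
    filter_upwards [hd, hb] with a hda hba z hz
    refine Complex.norm_deriv_le_of_forall_mem_sphere_norm_le hρ0 ?_ ?_
    · exact (hda.mono (hsub z hz)).diffContOnCl_ball Subset.rfl
    · intro w hw
      exact hba w (hsub z hz (sphere_subset_closedBall hw))
  have hdiff : ∀ᵐ a ∂μ, ∀ z ∈ ball z₀ ρ,
      HasDerivAt (fun z => F z a) (deriv (fun z => F z a) z) z := by
    filter_upwards [hd] with a hda z hz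
    exact ((hda z (hzU z hz)).differentiableAt (hU.mem_nhds (hzU z hz))).hasDerivAt
  have hmeas : AEStronglyMeasurable (fun a => deriv (fun z => F z a) z₀) μ := by
    -- a limit of difference quotients
    have hseq : Tendsto (fun n : ℕ => (ρ / (n + 2) : ℝ)) atTop (𝓝 0) := by
      have h1 : Tendsto (fun n : ℕ => (n : ℝ) + 2) atTop atTop :=
        tendsto_atTop_add_const_right _ _ tendsto_natCast_atTop_atTop
      exact h1.const_div_atTop ρ
    set s : ℕ → ℂ := fun n => ((ρ / (n + 2) : ℝ) : ℂ) with hs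
    have hs0 : ∀ n, s n ≠ 0 := by
      intro n
      simp only [hs]
      have : (ρ / (n + 2) : ℝ) ≠ 0 := by positivity
      exact_mod_cast this
    have hst : Tendsto s atTop (𝓝[≠] 0) := by
      refine tendsto_nhdsWithin_iff.2 ⟨?_, Eventually.of_forall fun n => hs0 n⟩
      have h3 := (Complex.continuous_ofReal.tendsto 0).comp hseq
      rw [Complex.ofReal_zero] at h3
      exact h3
    have hsU : ∀ n, z₀ + s n ∈ U := by
      intro n
      apply hzU
      rw [mem_ball, dist_eq_norm, add_sub_cancel_left]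
      simp only [hs]
      rw [Complex.norm_real, Real.norm_of_nonneg (by positivity)]
      rw [div_lt_iff₀ (by positivity)]
      nlinarith [hρ0, (Nat.cast_nonneg n : (0 : ℝ) ≤ n)]
    refine aestronglyMeasurable_of_tendsto_ae atTop
      (f := fun n a => (s n)⁻¹ * (F (z₀ + s n) a - F z₀ a)) (fun n => ?_) ?_
    · exact ((hm _ (hsU n)).sub (hm _ hz₀)).const_mul _
    · filter_upwards [hdiff] with a ha
      have h1 := (ha z₀ (mem_ball_self hρ0)).tendsto_slope_zero
      have h2 := h1.comp hst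
      simpa [Function.comp_def] using h2
  have h := hasDerivAt_integral_of_dominated_loc_of_deriv_le (μ := μ) (F := F)
    (F' := fun z a => deriv (fun z => F z a) z) (bound := fun a => b a / ρ)
    (ball_mem_nhds z₀ hρ0) ?_ ?_ hmeas hderiv (hi.div_const ρ) hdiff
  · exact h.2.differentiableAt.differentiableWithinAt
  · filter_upwards [hU.mem_nhds hz₀] with z hz
    exact hm z hz
  · refine hi.mono' (hm _ hz₀) ?_
    filter_upwards [hb] with a ha
    exact ha z₀ hz₀

theorem integrable_ball_const (c : ℝ) :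
    Integrable ((ball (0 : ℂ) 2).indicator fun _ => c) := by
  refine (integrable_indicator_iff measurableSet_ball).2 (integrableOn_const ?_)
  rw [Complex.volume_ball]
  exact ENNReal.mul_ne_top (by simp) (by simp)

/-- the Cauchy transform is holomorphic off the support -/
theorem ct_differentiableAt {g : ℂ → ℂ} (hg : AEStronglyMeasurable g volume) {M : ℝ}
    (hM : ∀ ζ, ‖g ζ‖ ≤ M) (hs : ∀ ζ, ζ ∉ ball (0 : ℂ) 2 → g ζ = 0) {z₀ : ℂ} {ρ : ℝ}
    (hρ : 0 < ρ) (h0 : ∀ ζ ∈ ball z₀ (2 * ρ), g ζ = 0) : DifferentiableAt ℂ (ct g) z₀ := by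
  have hM0 : 0 ≤ M := (norm_nonneg _).trans (hM 0)
  have h1 : DifferentiableOn ℂ (fun z => ∫ ζ, g ζ / (z - ζ)) (ball z₀ ρ) := by
    refine differentiableOn_integral (b := (ball (0 : ℂ) 2).indicator fun _ => M / ρ) isOpen_ball
      ?_ ?_ ?_ (integrable_ball_const _)
    · intro z _
      simp only [div_eq_mul_inv]
      exact hg.mul (by fun_prop : Measurable fun ζ : ℂ => (z - ζ)⁻¹).aestronglyMeasurable
    · refine Eventually.of_forall fun ζ => ?_
      by_cases hζ : ζ ∈ ball z₀ (2 * ρ)
      · rw [show (fun z => g ζ / (z - ζ)) = fun _ => 0 by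
          funext z
          rw [h0 ζ hζ, zero_div]]
        exact differentiableOn_const _
      · intro z hz
        refine (DifferentiableAt.div (differentiableAt_const _)
          (differentiableAt_id.sub_const ζ) ?_).differentiableWithinAt
        intro h
        rw [id, sub_eq_zero] at h
        subst h
        exact hζ (ball_subset_ball (by linarith) hz)
    · refine Eventually.of_forall fun ζ z hz => ?_
      by_cases hζ : ζ ∈ ball z₀ (2 * ρ)
      · rw [h0 ζ hζ, zero_div, norm_zero]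
        exact indicator_nonneg (fun _ _ => by positivity) ζ
      · by_cases hζ2 : ζ ∈ ball (0 : ℂ) 2
        · rw [indicator_of_mem hζ2, norm_div]
          have h2 : ρ ≤ ‖z - ζ‖ := by
            rw [mem_ball, dist_eq_norm] at hz
            rw [mem_ball, dist_eq_norm, not_lt] at hζ
            have := norm_sub_le_norm_sub_add_norm_sub ζ z z₀
            rw [norm_sub_rev ζ z] at this
            linarith
          gcongr
          exact hM ζ
        · rw [indicator_of_notMem hζ2, hs ζ hζ2]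
          simp
  have h2 := (h1 z₀ (mem_ball_self hρ)).differentiableAt (isOpen_ball.mem_nhds (mem_ball_self hρ))
  exact h2.const_mul _

/-- the cutoff -/
noncomputable def bump : ContDiffBump (0 : ℂ) := ⟨1 / 2, 3 / 4, by norm_num, by norm_num⟩

/-- the complex valued cutoff -/
noncomputable def cut (ζ : ℂ) : ℂ := ((bump ζ : ℝ) : ℂ)

theorem contDiff_cut {n : ℕ∞} : ContDiff ℝ n cut := by
  unfold cut
  exact Complex.ofRealCLM.contDiff.comp (ContDiffBump.contDiff _)

theorem cut_one {ζ : ℂ} (h : ‖ζ‖ ≤ 1 / 2) : cut ζ = 1 := by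
  unfold cut
  rw [ContDiffBump.one_of_mem_closedBall]
  · simp
  · rw [mem_closedBall_zero_iff]
    exact h

theorem cut_zero {ζ : ℂ} (h : 3 / 4 ≤ ‖ζ‖) : cut ζ = 0 := by
  unfold cut
  rw [ContDiffBump.zero_of_le_dist]
  · simp
  · simpa [dist_eq_norm, bump] using h

theorem hasCompactSupport_cut : HasCompactSupport cut := by
  refine HasCompactSupport.of_support_subset_isCompact (isCompact_closedBall (0 : ℂ) (3 / 4)) ?_
  intro ζ hζ
  by_contra h
  rw [mem_closedBall_zero_iff, not_le] at h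
  exact hζ (cut_zero h.le)

theorem dbar_cut_inner {ζ : ℂ} (h : ‖ζ‖ < 1 / 2) : dbar cut ζ = 0 := by
  have h1 : cut =ᶠ[𝓝 ζ] fun _ => 1 := by
    filter_upwards [(isOpen_lt continuous_norm continuous_const).mem_nhds h] with v hv
    exact cut_one (le_of_lt hv)
  unfold dbar
  rw [h1.fderiv_eq]
  simp

theorem dbar_cut_outer {ζ : ℂ} (h : 3 / 4 < ‖ζ‖) : dbar cut ζ = 0 := by
  have h1 : cut =ᶠ[𝓝 ζ] fun _ => 0 := by
    filter_upwards [(isOpen_lt continuous_const continuous_norm).mem_nhds h] with v hv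
    exact cut_zero (le_of_lt hv)
  unfold dbar
  rw [h1.fderiv_eq]
  simp

theorem contDiff_dbar_cut : ContDiff ℝ 1 (dbar cut) := by
  have h2 : ContDiff ℝ 2 cut := contDiff_cut (n := 2)
  have h1 : ContDiff ℝ 1 (fderiv ℝ cut) := h2.fderiv_right (by norm_num)
  unfold dbar
  exact ((h1.clm_apply contDiff_const).add
    (contDiff_const.mul (h1.clm_apply contDiff_const))).div_const 2

theorem exists_cut_bounds : ∃ M2 L2 L3 : ℝ, 0 ≤ M2 ∧ 0 ≤ L2 ∧ 0 ≤ L3 ∧
    (∀ ζ, ‖dbar cut ζ‖ ≤ M2) ∧ (∀ z w, ‖dbar cut z - dbar cut w‖ ≤ L2 * ‖z - w‖) ∧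
    ∀ z w, ‖cut z - cut w‖ ≤ L3 * ‖z - w‖ := by
  obtain ⟨M2, hM2⟩ := (hasCompactSupport_dbar hasCompactSupport_cut).exists_bound_of_continuous
    (continuous_dbar (contDiff_cut (n := 1)))
  obtain ⟨C, hC⟩ := ContDiff.lipschitzWith_of_hasCompactSupport hasCompactSupport_cut
    (contDiff_cut (n := 1)) one_ne_zero
  obtain ⟨D, hD⟩ := ContDiff.lipschitzWith_of_hasCompactSupport
    (hasCompactSupport_dbar hasCompactSupport_cut) contDiff_dbar_cut one_ne_zero
  exact ⟨M2, D, C, (norm_nonneg _).trans (hM2 0), D.2, C.2, hM2, fun z w => hD.norm_sub_le z w,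
    fun z w => hC.norm_sub_le z w⟩

/-- the localised density -/
noncomputable def gg (h : ℂ → ℂ) (ζ : ℂ) : ℂ := (h ζ - h 0) * dbar cut ζ

/-- the localisation -/
noncomputable def TT (h : ℂ → ℂ) (z : ℂ) : ℂ := cut z * (h z - h 0) - ct (gg h) z

theorem gg_zero {h : ℂ → ℂ} {ζ : ℂ} (hζ : 3 / 4 < ‖ζ‖) : gg h ζ = 0 := by
  rw [gg, dbar_cut_outer hζ, mul_zero]

theorem gg_zero' {h : ℂ → ℂ} {ζ : ℂ} (hζ : ζ ∉ ball (0 : ℂ) 2) : gg h ζ = 0 := by
  rw [mem_ball_zero_iff, not_lt] at hζ
  exact gg_zero (by linarith)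

theorem continuous_cutoff_mul {h φ : ℂ → ℂ} (hh : ContinuousOn h (ball 0 1)) (hφ : Continuous φ)
    (h0 : ∀ ζ : ℂ, 3 / 4 < ‖ζ‖ → φ ζ = 0) : Continuous fun ζ => (h ζ - h 0) * φ ζ := by
  rw [continuous_iff_continuousAt]
  intro ζ
  rcases lt_or_ge ‖ζ‖ 1 with h1 | h1
  · have h2 : ContinuousAt h ζ :=
      hh.continuousAt (isOpen_ball.mem_nhds (by rwa [mem_ball_zero_iff]))
    exact (h2.sub continuousAt_const).mul hφ.continuousAt
  · have h3 : (3 / 4 : ℝ) < ‖ζ‖ := by linarith
    have h2 : (fun ζ => (h ζ - h 0) * φ ζ) =ᶠ[𝓝 ζ] fun _ => 0 := by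
      filter_upwards [(isOpen_lt continuous_const continuous_norm).mem_nhds h3] with v hv
      rw [h0 v hv, mul_zero]
    exact h2.continuousAt

theorem continuous_gg {h : ℂ → ℂ} (hh : ContinuousOn h (ball 0 1)) : Continuous (gg h) :=
  continuous_cutoff_mul hh (continuous_dbar (contDiff_cut (n := 1))) fun _ hζ => dbar_cut_outer hζ

/-- the representation of the localisation -/
theorem TT_eq {h : ℂ → ℂ} (hh : ContinuousOn h (ball 0 1)) {M : ℝ} (hM : ∀ ζ, ‖gg h ζ‖ ≤ M)
    (z : ℂ) : TT h z = (π : ℂ)⁻¹ * ∫ ζ, dslope h ζ z * dbar cut ζ := by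
  obtain ⟨M2, L2, L3, hM2, -, -, hb2, -, -⟩ := exists_cut_bounds
  have hpi : (π : ℂ) ≠ 0 := by exact_mod_cast Real.pi_ne_zero
  have h1 : cut z = (π : ℂ)⁻¹ * ∫ ζ, dbar cut ζ / (z - ζ) := by
    rw [pompeiu (contDiff_cut (n := 1)) hasCompactSupport_cut z]
    field_simp
  have hs2 : ∀ ζ, ζ ∉ ball (0 : ℂ) 2 → dbar cut ζ = 0 := by
    intro ζ hζ
    rw [mem_ball_zero_iff, not_lt] at hζ
    exact dbar_cut_outer (by linarith)
  have i1 : Integrable fun ζ => dbar cut ζ / (z - ζ) :=
    integrable_kernel (continuous_dbar (contDiff_cut (n := 1))).aestronglyMeasurable hb2 hs2 z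
  have i2 : Integrable fun ζ => gg h ζ / (z - ζ) :=
    integrable_kernel (continuous_gg hh).aestronglyMeasurable hM (fun ζ hζ => gg_zero' hζ) z
  have hne : ∀ᵐ ζ : ℂ, ζ ≠ z := by simp [ae_iff, measure_singleton]
  have h2 : ∫ ζ, dslope h ζ z * dbar cut ζ =
      ∫ ζ, ((h z - h 0) * (dbar cut ζ / (z - ζ)) - gg h ζ / (z - ζ)) := by
    refine integral_congr_ae ?_
    filter_upwards [hne] with ζ hζ
    have h3 : z - ζ ≠ 0 := sub_ne_zero.2 hζ.symm
    rw [dslope_of_ne _ hζ.symm, slope_def_field, gg]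
    field_simp
    ring
  rw [h2, integral_sub (i1.const_mul _) i2, integral_const_mul, TT, ct, h1]
  ring

/-- the localisation is holomorphic wherever the function is -/
theorem TT_differentiableAt_inner {h : ℂ → ℂ} (hh : ContinuousOn h (ball 0 1)) {A : ℝ}
    (hA : ∀ z ∈ ball (0 : ℂ) 1, ‖h z - h 0‖ ≤ A) {z₀ : ℂ} {ρ : ℝ} (hρ : 0 < ρ)
    (hsub : ball z₀ (3 * ρ) ⊆ ball 0 1) (hd : DifferentiableOn ℂ h (ball z₀ (3 * ρ))) :
    DifferentiableAt ℂ (TT h) z₀ := by
  obtain ⟨M2, L2, L3, hM2, -, -, hb2, -, -⟩ := exists_cut_bounds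
  have hA0 : 0 ≤ A := (norm_nonneg _).trans (hA 0 (mem_ball_self one_pos))
  have hgM : ∀ ζ, ‖gg h ζ‖ ≤ A * M2 := by
    intro ζ
    rcases lt_or_ge ‖ζ‖ 1 with h1 | h1
    · rw [gg, norm_mul]
      gcongr
      · exact hA ζ (by rwa [mem_ball_zero_iff])
      · exact hb2 ζ
    · rw [gg_zero (by linarith), norm_zero]
      positivity
  -- a bound for the derivative
  have hderc : ContinuousOn (deriv h) (ball z₀ (3 * ρ)) :=
    (hd.deriv isOpen_ball).continuousOn
  have hcb : closedBall z₀ (2 * ρ) ⊆ ball z₀ (3 * ρ) := closedBall_subset_ball (by linarith)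
  obtain ⟨D, hD⟩ := (isCompact_closedBall z₀ (2 * ρ)).exists_bound_of_continuousOn
    (hderc.mono hcb)
  have hD0 : 0 ≤ D := (norm_nonneg _).trans (hD z₀ (mem_closedBall_self (by linarith)))
  have hz₀ρ : ball z₀ ρ ⊆ closedBall z₀ (2 * ρ) :=
    (ball_subset_ball (by linarith)).trans ball_subset_closedBall
  have key : DifferentiableOn ℂ (fun z => ∫ ζ, dslope h ζ z * dbar cut ζ) (ball z₀ ρ) := by
    refine differentiableOn_integral
      (b := (ball (0 : ℂ) 2).indicator fun _ => (D + 2 * A / ρ) * M2) isOpen_ball ?_ ?_ ?_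
      (integrable_ball_const _)
    · intro z _
      have hne : ∀ᵐ ζ : ℂ, ζ ≠ z := by simp [ae_iff, measure_singleton]
      have hmeas : AEStronglyMeasurable (fun ζ : ℂ => ((h z - h 0) * dbar cut ζ - gg h ζ) *
          (z - ζ)⁻¹) volume := by
        refine AEStronglyMeasurable.mul ?_
          (by fun_prop : Measurable fun ζ : ℂ => (z - ζ)⁻¹).aestronglyMeasurable
        exact ((continuous_const.mul (continuous_dbar (contDiff_cut (n := 1)))).sub
          (continuous_gg hh)).aestronglyMeasurable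
      refine hmeas.congr ?_
      filter_upwards [hne] with ζ hζ
      have h3 : z - ζ ≠ 0 := sub_ne_zero.2 hζ.symm
      rw [dslope_of_ne _ hζ.symm, slope_def_field, gg]
      field_simp
      ring
    · refine Eventually.of_forall fun ζ => ?_
      refine DifferentiableOn.mul_const ?_ _
      by_cases hζ : ζ ∈ ball z₀ (2 * ρ)
      · have hζ3 : ball z₀ (3 * ρ) ∈ 𝓝 ζ :=
          isOpen_ball.mem_nhds (ball_subset_ball (by linarith) hζ)
        exact ((Complex.differentiableOn_dslope hζ3).2 hd).mono (ball_subset_ball (by linarith))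
      · intro z hz
        have hne : z ≠ ζ := by
          rintro rfl
          exact hζ (ball_subset_ball (by linarith) hz)
        have h4 : DifferentiableAt ℂ h z :=
          (hd z (ball_subset_ball (by linarith) hz)).differentiableAt
            (isOpen_ball.mem_nhds (ball_subset_ball (by linarith) hz))
        exact ((differentiableAt_dslope_of_ne hne).2 h4).differentiableWithinAt
    · refine Eventually.of_forall fun ζ z hz => ?_
      rcases lt_or_ge (3 / 4) ‖ζ‖ with h1 | h1
      · rw [dbar_cut_outer h1, mul_zero, norm_zero]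
        exact indicator_nonneg (fun _ _ => by positivity) ζ
      · have hζ2 : ζ ∈ ball (0 : ℂ) 2 := by
          rw [mem_ball_zero_iff]
          linarith
        have hζ1 : ζ ∈ ball (0 : ℂ) 1 := by
          rw [mem_ball_zero_iff]
          linarith
        have hz1 : z ∈ ball (0 : ℂ) 1 := hsub (ball_subset_ball (by linarith) hz)
        rw [indicator_of_mem hζ2, norm_mul]
        refine mul_le_mul ?_ (hb2 ζ) (norm_nonneg _) (by positivity)
        by_cases hζ : ζ ∈ ball z₀ (2 * ρ)
        · have hle : ‖dslope h ζ z‖ ≤ D := by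
            by_cases hne : z = ζ
            · rw [hne, dslope_same]
              exact hD ζ (ball_subset_closedBall hζ)
            · rw [dslope_of_ne _ hne, slope_def_field, norm_div,
                div_le_iff₀ (norm_pos_iff.2 (sub_ne_zero.2 hne))]
              refine (convex_closedBall z₀ (2 * ρ)).norm_image_sub_le_of_norm_deriv_le
                (fun w hw => ?_) hD (ball_subset_closedBall hζ) (hz₀ρ hz)
              exact (hd w (hcb hw)).differentiableAt (isOpen_ball.mem_nhds (hcb hw))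
          have : 0 ≤ 2 * A / ρ := by positivity
          linarith
        · have h2 : ρ ≤ ‖z - ζ‖ := by
            rw [mem_ball, dist_eq_norm] at hz
            rw [mem_ball, dist_eq_norm, not_lt] at hζ
            have := norm_sub_le_norm_sub_add_norm_sub ζ z z₀
            rw [norm_sub_rev ζ z] at this
            linarith
          have hne : z ≠ ζ := by
            rintro rfl
            rw [sub_self, norm_zero] at h2
            linarith
          have hle : ‖dslope h ζ z‖ ≤ 2 * A / ρ := by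
            rw [dslope_of_ne _ hne, slope_def_field, norm_div]
            have h5 : ‖h z - h ζ‖ ≤ 2 * A := by
              have e1 := hA z hz1
              have e2 := hA ζ hζ1
              have e3 : h z - h ζ = (h z - h 0) - (h ζ - h 0) := by ring
              rw [e3]
              exact (norm_sub_le _ _).trans (by linarith)
            exact div_le_div₀ (by linarith) h5 hρ h2
          linarith
  have h6 := ((key z₀ (mem_ball_self hρ)).differentiableAt
    (isOpen_ball.mem_nhds (mem_ball_self hρ))).const_mul (π : ℂ)⁻¹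
  have h7 : TT h = fun z => (π : ℂ)⁻¹ * ∫ ζ, dslope h ζ z * dbar cut ζ := by
    funext z
    exact TT_eq hh hgM z
  rw [h7]
  exact h6

end Pool.Agent.Work.MP_c9b226_an
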