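import Pool.Agent.Work.MP_c9b226_an.Unit

/-!
# Unions of conformally removable sets
-/

set_option autoImplicit false

namespace Pool.Agent.Work.MP_c9b226_an

open MeasureTheory Set Filter Topology Metric
open Complex (I exp)
open scoped Real

/-- affine images of removable sets -/
theorem CHRemovable.preimage {K : Set ℂ} (hK : CHRemovable K) (p : ℂ) {r : ℝ} (hr : 0 < r) :
    CHRemovable {z | p + r * z ∈ K} := by
  intro f hf
  have hrc : (r : ℂ) ≠ 0 := by exact_mod_cast hr.ne'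
  -- the affine homeomorphism z ↦ (z - p) / r
  let e : ℂ ≃ₜ ℂ := (Homeomorph.addRight (-p)).trans (Homeomorph.mulRight₀ ((r : ℂ)⁻¹)
    (inv_ne_zero hrc))
  have he : ∀ z, e z = (z - p) * (r : ℂ)⁻¹ := fun z => by
    simp [e, sub_eq_add_neg]
  have h1 : Differentiable ℂ (e.trans f) := by
    apply hK
    intro z hz
    have h2 : e z ∉ {z | p + r * z ∈ K} := by
      intro h
      apply hz
      have h3 : p + r * e z = z := by
        rw [he]
        field_simp
        ring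
      rw [mem_ofPred_eq, h3] at h
      exact h
    have h4 : DifferentiableWithinAt ℂ f {z | p + r * z ∈ K}ᶜ (e z) := hf (e z) h2
    have h5 : DifferentiableWithinAt ℂ (⇑e) Kᶜ z := by
      have : (⇑e) = fun z => (z - p) * (r : ℂ)⁻¹ := funext he
      rw [this]
      exact ((differentiable_id.sub_const p).mul_const _).differentiableAt.differentiableWithinAt
    have h6 : MapsTo (⇑e) Kᶜ {z | p + r * z ∈ K}ᶜ := by
      intro w hw h
      apply hw
      have h3 : p + r * e w = w := by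
        rw [he]
        field_simp
        ring
      rw [mem_ofPred_eq, h3] at h
      exact h
    exact DifferentiableWithinAt.comp (g := ⇑f) (f := ⇑e) z h4 h5 h6
  have h2 : (⇑f) = fun z => (e.trans f) (p + r * z) := by
    funext z
    simp only [Homeomorph.trans_apply, he]
    congr 1
    field_simp
    ring
  rw [h2]
  exact h1.comp (by fun_prop)

/-- **the local theorem** -/
theorem local_thm : ∃ C : ℝ, 0 < C ∧ ∀ (K : Set ℂ), IsClosed K → CHRemovable K →
    ∀ (f : ℂ → ℂ) (κ : ℝ → ℝ) (p : ℂ) (r θ : ℝ) (u : ℂ), 0 < r →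
    ContinuousOn f (ball p r) → DifferentiableOn ℂ f (ball p r \ K) →
    AntitoneOn κ (Ioi 0) → (∀ t > 0, 0 ≤ κ t) → IntegrableOn κ (Ioo 0 r) →
    (∀ z ∈ ball p r, ∀ w ∈ ball p r, z ≠ w → ‖f z - f w‖ ≤ κ ‖z - w‖ * ‖z - w‖) →
    0 < θ → θ ≤ 1 → ‖u‖ = 1 →
    (∀ z ∈ ball p r, ∀ w ∈ ball p r, z ≠ w →
      C * (∫ t in Ioo 0 r, κ t) / (θ * r) ≤ ‖(f z - f w) / (z - w)‖ →
      θ < ‖(f z - f w) / (z - w) / (‖(f z - f w) / (z - w)‖ : ℂ) - u‖) →
    DifferentiableOn ℂ f (ball p (r / 2)) := by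
  obtain ⟨C, hC, hunit⟩ := unit_thm
  refine ⟨C, hC, ?_⟩
  intro K hK hrem f κ p r θ u hr hf hd hκa hκ0 hκi hmod hθ hθ1 hu hno
  have hrc : (r : ℂ) ≠ 0 := by exact_mod_cast hr.ne'
  have hmaps : ∀ z ∈ ball (0 : ℂ) 1, p + r * z ∈ ball p r := by
    intro z hz
    rw [mem_ball_zero_iff] at hz
    rw [mem_ball, dist_eq_norm, add_sub_cancel_left, norm_mul, Complex.norm_real,
      Real.norm_of_nonneg hr.le]
    nlinarith
  have haff : Continuous fun z : ℂ => p + r * z := by fun_prop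
  set κ₁ : ℝ → ℝ := (Ioi 0).indicator κ with hκ₁
  have hκ₁0 : ∀ t, 0 ≤ κ₁ t := fun t => indicator_nonneg (fun t ht => hκ0 t ht) t
  have hκ₁e : ∀ t, 0 < t → κ₁ t = κ t := fun t ht => indicator_of_mem (mem_Ioi.2 ht) κ
  have hκ₁i : IntegrableOn κ₁ (Ioo 0 r) := by
    refine hκi.congr_fun (fun t ht => ?_) measurableSet_Ioo
    exact (hκ₁e t ht.1).symm
  have hκ₁v : ∫ t in Ioo 0 r, κ₁ t = ∫ t in Ioo 0 r, κ t :=
    setIntegral_congr_fun measurableSet_Ioo fun t ht => hκ₁e t ht.1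
  have hint : IntervalIntegrable κ₁ volume 0 r := by
    rw [intervalIntegrable_iff_integrableOn_Ioc_of_le hr.le, integrableOn_Ioc_iff_integrableOn_Ioo]
    exact hκ₁i
  set κ₂ : ℝ → ℝ := fun t => r * κ₁ (r * t) with hκ₂
  have hκ₂i : IntegrableOn κ₂ (Ioo 0 1) := by
    have h1 := (hint.comp_mul_left (c := r)).const_mul r
    rw [zero_div, div_self hr.ne', intervalIntegrable_iff_integrableOn_Ioc_of_le zero_le_one,
      integrableOn_Ioc_iff_integrableOn_Ioo] at h1
    exact h1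
  have hκ₂v : ∫ t in Ioo 0 1, κ₂ t = ∫ t in Ioo 0 r, κ t := by
    rw [← hκ₁v, ← integral_Ioc_eq_integral_Ioo, ← integral_Ioc_eq_integral_Ioo,
      ← intervalIntegral.integral_of_le zero_le_one, ← intervalIntegral.integral_of_le hr.le,
      hκ₂, intervalIntegral.integral_const_mul, intervalIntegral.integral_comp_mul_left _ hr.ne']
    rw [mul_zero, mul_one, smul_eq_mul]
    field_simp
  have hκ₂a : AntitoneOn κ₂ (Ioi 0) := by
    intro s hs t ht hst
    have hs' : 0 < r * s := mul_pos hr hs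
    have ht' : 0 < r * t := mul_pos hr ht
    simp only [hκ₂]
    rw [hκ₁e _ hs', hκ₁e _ ht']
    exact mul_le_mul_of_nonneg_left (hκa (mem_Ioi.2 hs') (mem_Ioi.2 ht')
      (mul_le_mul_of_nonneg_left hst hr.le)) hr.le
  have hI0 : 0 ≤ ∫ t in Ioo 0 r, κ t :=
    setIntegral_nonneg measurableSet_Ioo fun t ht => hκ0 t ht.1
  have hquot : ∀ z w : ℂ, z ≠ w → (f (p + r * z) - f (p + r * w)) / (z - w) =
      r * ((f (p + r * z) - f (p + r * w)) / ((p + r * z) - (p + r * w))) := by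
    intro z w hzw
    have h1 : z - w ≠ 0 := sub_ne_zero.2 hzw
    rw [show (p + r * z) - (p + r * w) = r * (z - w) by ring]
    field_simp
  have hne : ∀ z w : ℂ, z ≠ w → p + r * z ≠ p + r * w := by
    intro z w hzw h
    exact hzw (mul_left_cancel₀ hrc (add_left_cancel h))
  have key := hunit {z | p + r * z ∈ K} (hK.preimage haff) (hrem.preimage p hr)
    (fun z => f (p + r * z)) κ₂ ((∫ t in Ioo 0 r, κ t) + 1) θ u
    (hf.comp haff.continuousOn hmaps)
    (by
      refine DifferentiableOn.comp hd (by fun_prop) ?_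
      intro z hz
      exact ⟨hmaps z hz.1, hz.2⟩)
    (fun t => mul_nonneg hr.le (hκ₁0 _)) hκ₂a hκ₂i (by rw [hκ₂v]; linarith) (by linarith)
    (by
      intro z hz w hw hzw
      have h1 := hmod _ (hmaps z hz) _ (hmaps w hw) (hne z w hzw)
      have h2 : ‖(p + r * z) - (p + r * w)‖ = r * ‖z - w‖ := by
        rw [show (p + r * z) - (p + r * w) = r * (z - w) by ring, norm_mul, Complex.norm_real,
          Real.norm_of_nonneg hr.le]
      rw [h2] at h1
      refine h1.trans (le_of_eq ?_)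
      simp only [hκ₂]
      rw [hκ₁e _ (mul_pos hr (norm_pos_iff.2 (sub_ne_zero.2 hzw)))]
      ring)
    hθ hθ1 hu
    (by
      intro z hz w hw hzw hq
      have h1 := hno _ (hmaps z hz) _ (hmaps w hw) (hne z w hzw)
      rw [hquot z w hzw] at hq ⊢
      set q := (f (p + r * z) - f (p + r * w)) / ((p + r * z) - (p + r * w)) with hqd
      rw [norm_mul, Complex.norm_real, Real.norm_of_nonneg hr.le] at hq ⊢
      have h2 : C * (∫ t in Ioo 0 r, κ t) / (θ * r) ≤ ‖q‖ := by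
        rw [div_le_iff₀ (mul_pos hθ hr)]
        rw [div_le_iff₀ hθ] at hq
        nlinarith
      have h3 := h1 h2
      rw [Complex.ofReal_mul, mul_div_mul_left _ _ hrc]
      exact h3)
  intro z₀ hz₀
  -- back to the original ball
  have h1 : f = fun z => (fun z => f (p + r * z)) ((z - p) * (r : ℂ)⁻¹) := by
    funext z
    congr 1
    field_simp
    ring
  have h2 : (z₀ - p) * (r : ℂ)⁻¹ ∈ ball (0 : ℂ) (1 / 2) := by
    rw [mem_ball, dist_eq_norm] at hz₀
    rw [mem_ball_zero_iff, norm_mul, norm_inv, Complex.norm_real, Real.norm_of_nonneg hr.le,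
      ← div_eq_mul_inv, div_lt_iff₀ hr]
    linarith
  have h3 : DifferentiableAt ℂ (fun z => f (p + r * z)) ((z₀ - p) * (r : ℂ)⁻¹) :=
    (key _ h2).differentiableAt (isOpen_ball.mem_nhds h2)
  rw [h1]
  exact (DifferentiableAt.comp z₀ h3
    ((differentiableAt_id.sub_const p).mul_const _)).differentiableWithinAt

/-- Baire: some portion of the bad set lies in one of the sets -/
theorem exists_portion {K : ℕ → Set ℂ} (hK : ∀ n, IsClosed (K n)) {f : ℂ → ℂ} {O : Set ℂ}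
    (hO : IsOpen O) (hbad : ∀ z ∈ O, ¬ AnalyticAt ℂ f z → z ∈ ⋃ n, K n)
    (hne : ∃ z ∈ O, ¬ AnalyticAt ℂ f z) :
    ∃ n, ∃ B : Set ℂ, IsOpen B ∧ B ⊆ O ∧ (∃ z ∈ B, ¬ AnalyticAt ℂ f z) ∧
      ∀ z ∈ B, ¬ AnalyticAt ℂ f z → z ∈ K n := by
  obtain ⟨z₁, hz₁, hz₁'⟩ := hne
  obtain ⟨ρ, hρ, hρO⟩ := Metric.isOpen_iff.1 hO z₁ hz₁
  set X : Set ℂ := closedBall z₁ (ρ / 2) ∩ {z | ¬ AnalyticAt ℂ f z} with hX
  have hcb : closedBall z₁ (ρ / 2) ⊆ O :=
    (closedBall_subset_ball (by linarith)).trans hρO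
  have hXc : IsClosed X := by
    refine isClosed_closedBall.inter ?_
    have : {z | ¬ AnalyticAt ℂ f z} = {z | AnalyticAt ℂ f z}ᶜ := rfl
    rw [this]
    exact (isOpen_analyticAt ℂ f).isClosed_compl
  have : CompleteSpace X := hXc.completeSpace_coe
  have hcov : ⋃ n, ((↑) : X → ℂ) ⁻¹' (K n) = univ := by
    rw [eq_univ_iff_forall]
    intro x
    obtain ⟨n, hn⟩ := mem_iUnion.1 (hbad x (hcb x.2.1) x.2.2)
    exact mem_iUnion.2 ⟨n, hn⟩
  have hdense := dense_iUnion_interior_of_closed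
    (fun n => (hK n).preimage (continuous_subtype_val (p := fun x => x ∈ X))) hcov
  have hopen : IsOpen (((↑) : X → ℂ) ⁻¹' ball z₁ (ρ / 2)) :=
    isOpen_ball.preimage continuous_subtype_val
  obtain ⟨x, hx, hx'⟩ := hdense.inter_open_nonempty _ hopen
    ⟨⟨z₁, mem_closedBall_self (by positivity), hz₁'⟩, mem_ball_self (by positivity)⟩
  obtain ⟨n, hn⟩ := mem_iUnion.1 hx'
  obtain ⟨W, hWo, hW⟩ := isOpen_induced_iff.1
    (isOpen_interior (s := ((↑) : X → ℂ) ⁻¹' (K n)))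
  have hxW : (x : ℂ) ∈ W := by
    rw [← hW] at hn
    exact hn
  refine ⟨n, W ∩ ball z₁ (ρ / 2), hWo.inter isOpen_ball, fun z hz => ?_, ⟨x, ⟨hxW, hx⟩, x.2.2⟩,
    fun z hz hz' => ?_⟩
  · exact hcb (ball_subset_closedBall hz.2)
  · have h1 : (⟨z, ball_subset_closedBall hz.2, hz'⟩ : X) ∈
        interior (((↑) : X → ℂ) ⁻¹' (K n)) := by
      rw [← hW]
      exact hz.1
    have h2 : (⟨z, ball_subset_closedBall hz.2, hz'⟩ : X) ∈ ((↑) : X → ℂ) ⁻¹' (K n) :=
      interior_subset h1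
    exact h2

end Pool.Agent.Work.MP_c9b226_an
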