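import Pool.Agent.Work.MP_c9b226_an.Defs

/-!
# Injective maps of the plane with bounded displacement are homeomorphisms
-/

set_option autoImplicit false

namespace Pool.Agent.Work.MP_c9b226_an

open Set Filter Topology Metric
open Complex (I exp)
open scoped Real

theorem surjective_of_bounded {G : ℂ → ℂ} (hG : Continuous G) {M : ℝ}
    (hM : ∀ z, ‖G z - z‖ ≤ M) : Function.Surjective G := by
  intro y
  by_contra hy
  push Not at hy
  have hM0 : 0 ≤ M := (norm_nonneg _).trans (hM 0)
  have hU : IsSimplyConnected (univ : Set ℂ) := by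
    have : ContractibleSpace (univ : Set ℂ) := convex_univ.contractibleSpace ⟨0, mem_univ 0⟩
    exact (inferInstance : SimplyConnectedSpace (univ : Set ℂ))
  obtain ⟨L, hL, hexp⟩ := Complex.exists_continuousOn_eqOn_exp_comp hU isOpen_univ
    (g := fun z => G z - y) (hG.sub continuous_const).continuousOn (by
      rintro ⟨z, -, hz⟩
      exact hy z (sub_eq_zero.1 hz))
  have hLc : Continuous L := by rwa [← continuousOn_univ]
  have hLe : ∀ z, exp (L z) = G z - y := fun z => hexp (mem_univ z)
  -- the big circle
  set R : ℝ := M + ‖y‖ + 1 with hR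
  have hR0 : 0 < R := by positivity
  set c : ℝ → ℂ := fun θ => R * exp (θ * I) with hc
  have hcn : ∀ θ, ‖c θ‖ = R := by
    intro θ
    simp only [hc]
    rw [norm_mul, Complex.norm_exp_ofReal_mul_I, mul_one, Complex.norm_real,
      Real.norm_of_nonneg hR0.le]
  have hc0 : ∀ θ, c θ ≠ 0 := fun θ => by
    rw [← norm_pos_iff, hcn]
    exact hR0
  set q : ℝ → ℂ := fun θ => (G (c θ) - y) / c θ with hq
  have hq1 : ∀ θ, ‖q θ - 1‖ < 1 := by
    intro θ
    have h1 : q θ - 1 = ((G (c θ) - c θ) - y) / c θ := by
      simp only [hq]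
      field_simp [hc0 θ]
      ring
    rw [h1, norm_div, hcn, div_lt_one hR0]
    have := norm_sub_le (G (c θ) - c θ) y
    have := hM (c θ)
    rw [hR]
    linarith
  have hqs : ∀ θ, q θ ∈ Complex.slitPlane := by
    intro θ
    refine Complex.mem_slitPlane_iff.2 (Or.inl ?_)
    have h1 := (Complex.abs_re_le_norm (q θ - 1)).trans_lt (hq1 θ)
    rw [Complex.sub_re, Complex.one_re, abs_lt] at h1
    linarith [h1.1]
  have hcc : Continuous c := by
    simp only [hc]
    fun_prop
  have hqc : Continuous q := by
    simp only [hq]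
    exact ((hG.comp hcc).sub continuous_const).div hcc hc0
  -- the difference of two logarithms
  set d : ℝ → ℂ := fun θ => L (c θ) - (θ * I + Real.log R + Complex.log (q θ)) with hd
  have hdc : Continuous d := by
    simp only [hd]
    refine (hLc.comp hcc).sub (((by fun_prop : Continuous fun θ : ℝ => (θ : ℂ) * I).add
      continuous_const).add ?_)
    exact continuous_iff_continuousAt.2 fun θ => hqc.continuousAt.clog (hqs θ)
  have hde : ∀ θ, exp (d θ) = 1 := by
    intro θ
    simp only [hd]
    rw [Complex.exp_sub, hLe, Complex.exp_add, Complex.exp_add,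
      Complex.exp_log (Complex.slitPlane_ne_zero (hqs θ))]
    have h1 : exp ((Real.log R : ℝ) : ℂ) = R := by
      rw [← Complex.ofReal_exp, Real.exp_log hR0]
    rw [h1]
    have h2 : G (c θ) - y ≠ 0 := fun h => hy _ (sub_eq_zero.1 h)
    have h3 : exp ((θ : ℂ) * I) * (R : ℂ) * q θ = G (c θ) - y := by
      have h4 : exp ((θ : ℂ) * I) * (R : ℂ) = c θ := by
        simp only [hc]
        ring
      rw [h4]
      simp only [hq]
      field_simp [hc0 θ]
    rw [h3, div_self h2]
  have hconst : d (2 * π) = d 0 := by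
    -- continuous with values in a discrete set
    have h1 : ∀ θ, ∃ n : ℤ, d θ = n * (2 * π * I) := fun θ => Complex.exp_eq_one_iff.1 (hde θ)
    choose n hn using h1
    have h2 : ∀ θ, (d θ / (2 * π * I)).re = n θ := by
      intro θ
      rw [hn θ, mul_div_cancel_right₀ _ Complex.two_pi_I_ne_zero]
      simp
    have h3 : Continuous fun θ => (d θ / (2 * π * I)).re :=
      Complex.continuous_re.comp (hdc.div_const _)
    have h4 : Continuous n := by
      refine Int.isClosedEmbedding_coe_real.isEmbedding.continuous_iff.2 ?_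
      refine h3.congr fun θ => ?_
      rw [h2 θ]
      rfl
    have h5 : n (2 * π) = n 0 := PreconnectedSpace.constant inferInstance h4
    rw [hn, hn, h5]
  have hcc2 : c (2 * π) = c 0 := by
    simp only [hc]
    push_cast
    rw [Complex.exp_two_pi_mul_I]
    simp
  have hqq2 : q (2 * π) = q 0 := by
    simp only [hq]
    rw [hcc2]
  simp only [hd] at hconst
  rw [hcc2, hqq2] at hconst
  push_cast at hconst
  have h6 : (2 * π * I : ℂ) = 0 := by linear_combination -hconst
  exact Complex.two_pi_I_ne_zero h6

/-- bounded displacement -/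
theorem exists_homeo {G : ℂ → ℂ} (hG : Continuous G) (hi : Function.Injective G) {M : ℝ}
    (hM : ∀ z, ‖G z - z‖ ≤ M) : ∃ f : ℂ ≃ₜ ℂ, ⇑f = G := by
  have hs := surjective_of_bounded hG hM
  have htend : Tendsto G (cocompact ℂ) (cocompact ℂ) := by
    refine tendsto_cocompact_cocompact_of_norm fun ε => ⟨ε + M, fun z hz => ?_⟩
    have h1 := norm_sub_norm_le z (z - G z)
    rw [sub_sub_cancel, norm_sub_rev z (G z)] at h1
    have h2 := hM z
    linarith
  have hp : IsProperMap G := isProperMap_iff_tendsto_cocompact.2 ⟨hG, htend⟩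
  let e : ℂ ≃ ℂ := Equiv.ofBijective G ⟨hi, hs⟩
  refine ⟨e.toHomeomorphOfContinuousClosed hG hp.isClosedMap, rfl⟩

end Pool.Agent.Work.MP_c9b226_an
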