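import Mathlib

/-!
# The formula of Pompeiu for compactly supported functions
-/

set_option autoImplicit false

namespace Pool.Agent.Work.MP_c9b226_an

open MeasureTheory Set Filter Topology Metric
open Complex (I exp)
open scoped Real

/-- the derivative with respect to the conjugate variable -/
noncomputable def dbar (φ : ℂ → ℂ) (z : ℂ) : ℂ := (fderiv ℝ φ z 1 + I * fderiv ℝ φ z I) / 2

theorem dbar_mul_exp {φ : ℂ → ℂ} (z : ℂ) (θ : ℝ) :
    dbar φ z * exp (-(θ * I)) =
      (fderiv ℝ φ z (exp (θ * I)) + I * fderiv ℝ φ z (I * exp (θ * I))) / 2 := by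
  have h1 : exp (θ * I) = (Real.cos θ) • (1 : ℂ) + (Real.sin θ) • I := by
    rw [Complex.exp_mul_I]
    simp [Complex.real_smul]
  have h2 : I * exp (θ * I) = (-Real.sin θ) • (1 : ℂ) + (Real.cos θ) • I := by
    rw [h1]
    simp only [Complex.real_smul]
    push_cast
    linear_combination (Complex.sin θ : ℂ) * Complex.I_mul_I
  have h3 : exp (-(θ * I)) = Complex.cos θ - Complex.sin θ * I := by
    rw [show -((θ : ℂ) * I) = ((-θ : ℝ) : ℂ) * I by push_cast; ring, Complex.exp_mul_I]
    push_cast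
    rw [Complex.cos_neg, Complex.sin_neg]
    ring
  rw [h2, h1, h3, map_add, map_add, map_smul, map_smul, map_smul, map_smul]
  simp only [Complex.real_smul, dbar]
  push_cast
  linear_combination - (Complex.sin θ : ℂ) * (fderiv ℝ φ z I) / 2 * Complex.I_mul_I

/-- the ray in direction `θ` from `z` -/
theorem hasDerivAt_ray {φ : ℂ → ℂ} (hφ : ContDiff ℝ 1 φ) (z : ℂ) (θ r : ℝ) :
    HasDerivAt (fun r : ℝ => φ (z + r * exp (θ * I)))
      (fderiv ℝ φ (z + r * exp (θ * I)) (exp (θ * I))) r := by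
  have h1 : HasDerivAt (fun r : ℝ => z + (r : ℂ) * exp (θ * I)) (exp (θ * I)) r := by
    have := ((Complex.ofRealCLM.hasDerivAt (x := r)).mul_const (exp (θ * I))).const_add z
    simpa using this
  have h2 : HasFDerivAt φ (fderiv ℝ φ (z + r * exp (θ * I))) (z + r * exp (θ * I)) :=
    (hφ.differentiable one_ne_zero _).hasFDerivAt
  exact h2.comp_hasDerivAt r h1

theorem hasDerivAt_angle {φ : ℂ → ℂ} (hφ : ContDiff ℝ 1 φ) (z : ℂ) (r θ : ℝ) :
    HasDerivAt (fun θ : ℝ => φ (z + r * exp (θ * I)))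
      (r • fderiv ℝ φ (z + r * exp (θ * I)) (I * exp (θ * I))) θ := by
  have h1 : HasDerivAt (fun θ : ℝ => z + (r : ℂ) * exp (θ * I))
      (r • (I * exp (θ * I))) θ := by
    have h3 : HasDerivAt (fun θ : ℝ => (θ : ℂ) * I) I θ := by
      have := (Complex.ofRealCLM.hasDerivAt (x := θ)).mul_const I
      simpa using this
    have := (h3.cexp.const_mul (r : ℂ)).const_add z
    convert! this using 1
    rw [Complex.real_smul]
    ring
  have h2 : HasFDerivAt φ (fderiv ℝ φ (z + r * exp (θ * I))) (z + r * exp (θ * I)) :=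
    (hφ.differentiable one_ne_zero _).hasFDerivAt
  have h3 := h2.comp_hasDerivAt θ h1
  rwa [map_smul] at h3

theorem polar_target : polarCoord.target = Ioi (0 : ℝ) ×ˢ Ioo (-π) π := rfl

theorem integrableOn_strip {F : ℝ × ℝ → ℂ} (hF : Continuous F) {R : ℝ}
    (hR : ∀ p : ℝ × ℝ, R < p.1 → F p = 0) :
    IntegrableOn F (Ioi (0 : ℝ) ×ˢ Ioo (-π) π) := by
  have h1 : IntegrableOn F (Icc 0 R ×ˢ Icc (-π) π) :=
    hF.continuousOn.integrableOn_compact (isCompact_Icc.prod isCompact_Icc)
  have h2 : IntegrableOn F (Ioi R ×ˢ Icc (-π) π) := by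
    refine (integrableOn_zero (μ := volume)).congr_fun ?_
      (measurableSet_Ioi.prod measurableSet_Icc)
    intro p hp
    exact (hR p hp.1).symm
  refine (h1.union h2).mono_set ?_
  intro p hp
  obtain ⟨hp1, hp2⟩ := hp
  rcases le_or_gt p.1 R with h | h
  · exact Or.inl ⟨⟨hp1.le, h⟩, Ioo_subset_Icc_self hp2⟩
  · exact Or.inr ⟨h, Ioo_subset_Icc_self hp2⟩

/-- **the formula of Pompeiu** -/
theorem pompeiu {φ : ℂ → ℂ} (hφ : ContDiff ℝ 1 φ) (hc : HasCompactSupport φ) (z : ℂ) :
    ∫ ζ, dbar φ ζ / (z - ζ) = π * φ z := by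
  obtain ⟨R, hR⟩ : ∃ R, ∀ w, R < ‖w‖ → φ w = 0 := by
    obtain ⟨R, hR⟩ := hc.isCompact.isBounded.subset_closedBall 0
    refine ⟨R, fun w hw => ?_⟩
    by_contra h
    have := hR (subset_tsupport φ h)
    rw [mem_closedBall_zero_iff] at this
    linarith
  have hcont : Continuous (fderiv ℝ φ) := hφ.continuous_fderiv one_ne_zero
  have hR' : ∀ w, R < ‖w‖ → fderiv ℝ φ w = 0 := by
    intro w hw
    have : φ =ᶠ[𝓝 w] fun _ => 0 := by
      filter_upwards [(isOpen_lt continuous_const continuous_norm).mem_nhds hw] with v hv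
      exact hR v hv
    rw [this.fderiv_eq]
    simp
  have hfar : ∀ (r θ : ℝ), R + ‖z‖ < r → R < ‖z + r * exp (θ * I)‖ := by
    intro r θ hr
    have h1 : ‖(r : ℂ) * exp (θ * I)‖ = |r| := by
      rw [norm_mul, Complex.norm_exp_ofReal_mul_I, mul_one, Complex.norm_real, Real.norm_eq_abs]
    have h2 : ‖(r : ℂ) * exp (θ * I)‖ ≤ ‖z + r * exp (θ * I)‖ + ‖z‖ := by
      have := norm_sub_le (z + r * exp (θ * I)) z
      simpa using this
    have := le_abs_self r
    linarith
  set A : ℝ × ℝ → ℂ := fun p => fderiv ℝ φ (z + p.1 * exp (p.2 * I)) (exp (p.2 * I)) with hA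
  set B : ℝ × ℝ → ℂ := fun p => fderiv ℝ φ (z + p.1 * exp (p.2 * I)) (I * exp (p.2 * I)) with hB
  have hpt : Continuous fun p : ℝ × ℝ => z + p.1 * exp (p.2 * I) := by fun_prop
  have hAc : Continuous A := by
    exact (hcont.comp hpt).clm_apply (by fun_prop)
  have hBc : Continuous B := by
    exact (hcont.comp hpt).clm_apply (by fun_prop)
  have hAi : IntegrableOn A (Ioi (0 : ℝ) ×ˢ Ioo (-π) π) :=
    integrableOn_strip (R := R + ‖z‖) hAc fun p hp => by
      simp only [hA, hR' _ (hfar p.1 p.2 hp)]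
      simp
  have hBi : IntegrableOn B (Ioi (0 : ℝ) ×ˢ Ioo (-π) π) :=
    integrableOn_strip (R := R + ‖z‖) hBc fun p hp => by
      simp only [hB, hR' _ (hfar p.1 p.2 hp)]
      simp
  -- polar coordinates
  have h1 : ∫ ζ, dbar φ ζ / (z - ζ) = ∫ ξ, dbar φ (z + ξ) / (-ξ) := by
    rw [← integral_add_left_eq_self _ z]
    refine integral_congr_ae (Eventually.of_forall fun ξ => ?_)
    simp only
    rw [show z - (z + ξ) = -ξ by ring]
  have h2 : ∫ ξ, dbar φ (z + ξ) / (-ξ) =
      ∫ p in Ioi (0 : ℝ) ×ˢ Ioo (-π) π, -((A p + I * B p) / 2) := by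
    rw [← Complex.integral_comp_polarCoord_symm, polar_target]
    refine setIntegral_congr_fun (measurableSet_Ioi.prod measurableSet_Ioo) ?_
    intro p hp
    have hp1 : 0 < p.1 := hp.1
    have h3 : Complex.polarCoord.symm p = p.1 * exp (p.2 * I) := by
      rw [Complex.polarCoord_symm_apply, Complex.exp_mul_I]
      push_cast
      ring
    simp only [h3]
    have h4 := dbar_mul_exp (φ := φ) (z + p.1 * exp (p.2 * I)) p.2
    simp only [hA, hB]
    rw [← h4, Complex.real_smul, Complex.exp_neg]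
    have h5 : (p.1 : ℂ) ≠ 0 := by exact_mod_cast hp1.ne'
    have h6 : exp (p.2 * I) ≠ 0 := Complex.exp_ne_zero _
    field_simp
  have hA2 : ∫ p in Ioi (0 : ℝ) ×ˢ Ioo (-π) π, A p = -(2 * π * φ z) := by
    have hsw : IntegrableOn (fun q : ℝ × ℝ => A q.swap) (Ioo (-π) π ×ˢ Ioi (0 : ℝ)) := by
      have h3 := hAi
      rw [IntegrableOn, Measure.volume_eq_prod, ← Measure.prod_restrict] at h3
      rw [IntegrableOn, Measure.volume_eq_prod, ← Measure.prod_restrict]
      exact h3.swap
    rw [Measure.volume_eq_prod, ← setIntegral_prod_swap]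
    rw [Measure.volume_eq_prod] at hsw
    rw [setIntegral_prod _ hsw]
    have h3 : ∀ θ ∈ Ioo (-π) π, ∫ r in Ioi (0 : ℝ), A (Prod.swap (θ, r)) = -φ z := by
      intro θ _
      have h4 : ∀ r : ℝ, deriv (fun r : ℝ => φ (z + r * exp (θ * I))) r =
          A (Prod.swap (θ, r)) := fun r => (hasDerivAt_ray hφ z θ r).deriv
      have h5 : ContDiff ℝ 1 fun r : ℝ => φ (z + r * exp (θ * I)) := by
        refine hφ.comp ?_
        exact contDiff_const.add ((Complex.ofRealCLM.contDiff).mul contDiff_const)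
      have h6 : HasCompactSupport fun r : ℝ => φ (z + r * exp (θ * I)) := by
        refine HasCompactSupport.of_support_subset_isCompact
          (isCompact_Icc (a := -(R + ‖z‖)) (b := R + ‖z‖)) ?_
        intro r hr
        by_contra h
        apply hr
        have h7 : R + ‖z‖ < |r| := by
          rw [mem_Icc, ← abs_le, not_le] at h
          exact h
        refine hR _ ?_
        have h8 : ‖(r : ℂ) * exp (θ * I)‖ = |r| := by
          rw [norm_mul, Complex.norm_exp_ofReal_mul_I, mul_one, Complex.norm_real,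
            Real.norm_eq_abs]
        have h9 : ‖(r : ℂ) * exp (θ * I)‖ ≤ ‖z + r * exp (θ * I)‖ + ‖z‖ := by
          have := norm_sub_le (z + r * exp (θ * I)) z
          simpa using this
        linarith
      have h7 := HasCompactSupport.integral_Ioi_deriv_eq h5 h6 0
      simp only [h4] at h7
      rw [h7]
      simp
    rw [setIntegral_congr_fun measurableSet_Ioo h3]
    simp only [integral_const, MeasurableSet.univ, measureReal_restrict_apply, univ_inter,
      Real.volume_real_Ioo, smul_neg, Complex.real_smul]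
    rw [max_eq_left (by linarith [Real.pi_pos])]
    push_cast
    ring
  have hB2 : ∫ p in Ioi (0 : ℝ) ×ˢ Ioo (-π) π, B p = 0 := by
    rw [Measure.volume_eq_prod] at hBi ⊢
    rw [setIntegral_prod _ hBi]
    refine (setIntegral_congr_fun measurableSet_Ioi ?_).trans (integral_zero _ _)
    intro r hr
    have hr' : (0 : ℝ) < r := hr
    simp only
    rw [← integral_Ioc_eq_integral_Ioo,
      ← intervalIntegral.integral_of_le (by linarith [Real.pi_pos])]
    have h4 : ∀ θ ∈ uIcc (-π) π, HasDerivAt (fun θ : ℝ => φ (z + r * exp (θ * I)))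
        (r • B (r, θ)) θ := fun θ _ => hasDerivAt_angle hφ z r θ
    have h5 : Continuous fun θ : ℝ => r • B (r, θ) :=
      (hBc.comp (by fun_prop : Continuous fun θ : ℝ => (r, θ))).const_smul r
    have h6 := intervalIntegral.integral_eq_sub_of_hasDerivAt h4 (h5.intervalIntegrable _ _)
    rw [intervalIntegral.integral_smul] at h6
    have h7 : exp ((π : ℂ) * I) = exp (((-π : ℝ) : ℂ) * I) := by
      rw [Complex.exp_pi_mul_I]
      push_cast
      rw [neg_mul, Complex.exp_neg, Complex.exp_pi_mul_I]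
      norm_num
    rw [h7, sub_self] at h6
    exact (smul_eq_zero.1 h6).resolve_left hr'.ne'
  rw [h1, h2, integral_neg, integral_div, integral_add hAi (hBi.const_mul I),
    integral_const_mul, hA2, hB2]
  ring

end Pool.Agent.Work.MP_c9b226_an
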