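import Pool.Agent.Work.MP_c9b226_an.Loc
import Pool.Agent.Work.MP_c9b226_an.Onto

/-!
# The local theorem in the unit ball
-/

set_option autoImplicit false

namespace Pool.Agent.Work.MP_c9b226_an

open MeasureTheory Set Filter Topology Metric
open Complex (I exp)
open scoped Real

theorem norm_dir_sub_le {x y : ℂ} (hy : y ≠ 0) :
    ‖x / (‖x‖ : ℂ) - y / (‖y‖ : ℂ)‖ ≤ 2 * ‖x - y‖ / ‖y‖ := by
  have hy' : 0 < ‖y‖ := norm_pos_iff.2 hy
  have hyc : ((‖y‖ : ℝ) : ℂ) ≠ 0 := by exact_mod_cast hy'.ne'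
  rcases eq_or_ne x 0 with rfl | hx
  · rw [zero_div, zero_sub, norm_neg, norm_div, Complex.norm_real, norm_norm,
      div_self hy'.ne', zero_sub, norm_neg, mul_div_assoc, div_self hy'.ne']
    norm_num
  have hx' : 0 < ‖x‖ := norm_pos_iff.2 hx
  have hxc : ((‖x‖ : ℝ) : ℂ) ≠ 0 := by exact_mod_cast hx'.ne'
  have h1 : x / (‖x‖ : ℂ) - y / (‖y‖ : ℂ) =
      (x / (‖x‖ : ℂ)) * (((‖y‖ - ‖x‖ : ℝ) : ℂ) / (‖y‖ : ℂ)) + (x - y) / (‖y‖ : ℂ) := by
    push_cast
    field_simp
    ring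
  rw [h1]
  refine (norm_add_le _ _).trans ?_
  rw [norm_mul, norm_div x, norm_div, norm_div, Complex.norm_real, Complex.norm_real,
    Complex.norm_real, norm_norm, norm_norm, div_self hx'.ne', one_mul, ← add_div]
  gcongr
  rw [two_mul, Real.norm_eq_abs]
  gcongr
  rw [abs_sub_comm]
  exact abs_norm_sub_norm_le x y

section dini

variable {κ : ℝ → ℝ} {A : ℝ}

theorem mul_kappa_le (hκ0 : ∀ t, 0 ≤ κ t) (hκa : AntitoneOn κ (Ioi 0))
    (hκi : IntegrableOn κ (Ioo 0 1)) (hA : ∫ t in Ioo 0 1, κ t ≤ A) {t : ℝ} (ht : 0 < t)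
    (ht1 : t ≤ 1) : κ t * t ≤ A := by
  have h1 : ∫ s in Ioo 0 t, κ t ≤ ∫ s in Ioo 0 t, κ s := by
    refine setIntegral_mono_on (integrableOn_const (by simp))
      (hκi.mono_set (Ioo_subset_Ioo_right ht1)) measurableSet_Ioo fun s hs => ?_
    exact hκa hs.1 ht hs.2.le
  have h2 : ∫ s in Ioo 0 t, κ s ≤ ∫ s in Ioo 0 1, κ s :=
    setIntegral_mono_set hκi (Eventually.of_forall fun s => hκ0 s)
      (Ioo_subset_Ioo_right ht1).eventuallyLE
  have h3 : ∫ s in Ioo 0 t, κ t = κ t * t := by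
    rw [setIntegral_const, Real.volume_real_Ioo, sub_zero, max_eq_left ht.le, smul_eq_mul,
      mul_comm]
  linarith

theorem integrableOn_four (hκ0 : ∀ t, 0 ≤ κ t) (hκa : AntitoneOn κ (Ioi 0))
    (hκi : IntegrableOn κ (Ioo 0 1)) (hA : ∫ t in Ioo 0 1, κ t ≤ A) :
    IntegrableOn κ (Ioo 0 4) ∧ ∫ t in Ioo 0 4, κ t ≤ 4 * A := by
  have h1 : IntegrableOn κ (Icc 1 4) :=
    (hκa.mono fun t ht => lt_of_lt_of_le one_pos ht.1).integrableOn_isCompact isCompact_Icc
  have h2 : Ioo (0 : ℝ) 4 ⊆ Ioo 0 1 ∪ Icc 1 4 := by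
    intro t ht
    rcases lt_or_ge t 1 with h | h
    · exact Or.inl ⟨ht.1, h⟩
    · exact Or.inr ⟨h, ht.2.le⟩
  have h3 := (hκi.union h1)
  refine ⟨h3.mono_set h2, ?_⟩
  have hk1 : κ 1 ≤ A := by
    have := mul_kappa_le hκ0 hκa hκi hA one_pos le_rfl
    linarith
  calc ∫ t in Ioo 0 4, κ t ≤ ∫ t in Ioo 0 1 ∪ Icc 1 4, κ t :=
        setIntegral_mono_set h3 (Eventually.of_forall fun s => hκ0 s) h2.eventuallyLE
    _ = (∫ t in Ioo 0 1, κ t) + ∫ t in Icc 1 4, κ t := by
        refine setIntegral_union ?_ measurableSet_Icc hκi h1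
        rw [Set.disjoint_left]
        intro t ht ht'
        exact absurd ht.2 (not_lt.2 ht'.1)
    _ ≤ A + 3 * κ 1 := by
        refine add_le_add hA ?_
        have h4 : ∫ t in Icc (1 : ℝ) 4, κ t ≤ ∫ t in Icc (1 : ℝ) 4, κ 1 := by
          refine setIntegral_mono_on h1 (integrableOn_const (by simp)) measurableSet_Icc
            fun t ht => ?_
          exact hκa (mem_Ioi.2 one_pos) (mem_Ioi.2 (lt_of_lt_of_le one_pos ht.1)) ht.1
        refine h4.trans (le_of_eq ?_)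
        rw [setIntegral_const, Real.volume_real_Icc, smul_eq_mul]
        norm_num
    _ ≤ 4 * A := by linarith

end dini

/-- the quantitative estimate for the localisation -/
theorem TT_estimate : ∃ C : ℝ, 0 < C ∧ ∀ (h : ℂ → ℂ) (κ : ℝ → ℝ) (A : ℝ),
    ContinuousOn h (ball 0 1) → (∀ t, 0 ≤ κ t) → AntitoneOn κ (Ioi 0) →
    IntegrableOn κ (Ioo 0 1) → ∫ t in Ioo 0 1, κ t ≤ A →
    (∀ z ∈ ball (0 : ℂ) 1, ∀ w ∈ ball (0 : ℂ) 1, z ≠ w → ‖h z - h w‖ ≤ κ ‖z - w‖ * ‖z - w‖) →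
    (∀ z ∈ ball (0 : ℂ) 1, ‖h z - h 0‖ ≤ A) ∧
    (∀ ζ, ‖gg h ζ‖ ≤ C * A) ∧ Continuous (ct (gg h)) ∧ (∀ z, ‖TT h z‖ ≤ C * A) ∧
    ∀ z w : ℂ, ∃ a : ℝ, 0 ≤ a ∧ a ≤ 1 ∧
      ‖TT h z - TT h w - a * (h z - h w)‖ ≤ C * A * ‖z - w‖ ∧
      (a = 0 ∨ (z ∈ ball (0 : ℂ) 1 ∧ w ∈ ball (0 : ℂ) 1)) := by
  obtain ⟨M2, L2, L3, hM2, hL2, hL3, hb2, hl2, hl3⟩ := exists_cut_bounds
  obtain ⟨K0, hK0, hct⟩ := ct_lipschitz
  refine ⟨1 + 16 * M2 + M2 + L3 + K0 * (5 * M2 + 4 * L2), by positivity, ?_⟩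
  intro h κ A hh hκ0 hκa hκi hA hmod
  set C := 1 + 16 * M2 + M2 + L3 + K0 * (5 * M2 + 4 * L2) with hC
  have hA0 : 0 ≤ A := (setIntegral_nonneg measurableSet_Ioo fun t _ => hκ0 t).trans hA
  have hosc : ∀ z ∈ ball (0 : ℂ) 1, ‖h z - h 0‖ ≤ A := by
    intro z hz
    rcases eq_or_ne z 0 with rfl | hz0
    · simpa using hA0
    · refine (hmod z hz 0 (mem_ball_self one_pos) hz0).trans ?_
      rw [sub_zero]
      exact mul_kappa_le hκ0 hκa hκi hA (norm_pos_iff.2 hz0) (mem_ball_zero_iff.1 hz).le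
  have hgM : ∀ ζ, ‖gg h ζ‖ ≤ A * M2 := by
    intro ζ
    rcases lt_or_ge ‖ζ‖ 1 with h1 | h1
    · rw [gg, norm_mul]
      gcongr
      · exact hosc ζ (by rwa [mem_ball_zero_iff])
      · exact hb2 ζ
    · rw [gg_zero (by linarith), norm_zero]
      positivity
  obtain ⟨hi4, hI4⟩ := integrableOn_four hκ0 hκa hκi hA
  -- the modulus of the localised density
  set κ' : ℝ → ℝ := fun t => M2 * κ t + A * L2 with hκ'
  have hκ'0 : ∀ t, 0 ≤ κ' t := fun t => add_nonneg (mul_nonneg hM2 (hκ0 t)) (mul_nonneg hA0 hL2)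
  have hκ'a : AntitoneOn κ' (Ioi 0) := fun s hs t ht hst =>
    add_le_add_left (mul_le_mul_of_nonneg_left (hκa hs ht hst) hM2) _
  have hκ'i : IntegrableOn κ' (Ioo 0 4) := (hi4.const_mul M2).add (integrableOn_const (by simp))
  have hκ'v : ∫ t in Ioo 0 4, κ' t ≤ (4 * M2 + 4 * L2) * A := by
    rw [hκ', integral_add (hi4.const_mul M2) (integrableOn_const (by simp)), integral_const_mul]
    have h1 : ∫ t in Ioo (0 : ℝ) 4, A * L2 = 4 * (A * L2) := by
      rw [setIntegral_const, Real.volume_real_Ioo, smul_eq_mul]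
      norm_num
    rw [h1]
    have h2 := mul_le_mul_of_nonneg_left hI4 hM2
    linarith
  have hone : ∀ z w : ℂ, ‖w‖ ≥ 1 → ‖gg h z - gg h w‖ ≤ A * L2 * ‖z - w‖ := by
    intro z w hw
    rw [gg_zero (show 3 / 4 < ‖w‖ by linarith), sub_zero]
    rcases lt_or_ge ‖z‖ 1 with hz | hz
    · rw [gg, norm_mul]
      have h1 := hl2 z w
      rw [dbar_cut_outer (show 3 / 4 < ‖w‖ by linarith), sub_zero] at h1
      calc ‖h z - h 0‖ * ‖dbar cut z‖ ≤ A * (L2 * ‖z - w‖) := by
            gcongr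
            exact hosc z (by rwa [mem_ball_zero_iff])
        _ = A * L2 * ‖z - w‖ := by ring
    · rw [gg_zero (show 3 / 4 < ‖z‖ by linarith), norm_zero]
      positivity
  have hgmod : ∀ z w, z ≠ w → ‖gg h z - gg h w‖ ≤ κ' ‖z - w‖ * ‖z - w‖ := by
    intro z w hzw
    have hle : A * L2 * ‖z - w‖ ≤ κ' ‖z - w‖ * ‖z - w‖ := by
      refine mul_le_mul_of_nonneg_right ?_ (norm_nonneg _)
      simp only [hκ']
      linarith [mul_nonneg hM2 (hκ0 ‖z - w‖)]
    rcases lt_or_ge ‖w‖ 1 with hw | hw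
    · rcases lt_or_ge ‖z‖ 1 with hz | hz
      · have hz' : z ∈ ball (0 : ℂ) 1 := by rwa [mem_ball_zero_iff]
        have hw' : w ∈ ball (0 : ℂ) 1 := by rwa [mem_ball_zero_iff]
        have h1 : gg h z - gg h w = (h z - h w) * dbar cut z +
            (h w - h 0) * (dbar cut z - dbar cut w) := by
          rw [gg, gg]
          ring
        rw [h1]
        refine (norm_add_le _ _).trans ?_
        rw [norm_mul, norm_mul]
        calc ‖h z - h w‖ * ‖dbar cut z‖ + ‖h w - h 0‖ * ‖dbar cut z - dbar cut w‖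
            ≤ (κ ‖z - w‖ * ‖z - w‖) * M2 + A * (L2 * ‖z - w‖) := by
              gcongr
              · exact mul_nonneg (hκ0 _) (norm_nonneg _)
              · exact hmod z hz' w hw' hzw
              · exact hb2 z
              · exact hosc w hw'
              · exact hl2 z w
          _ = κ' ‖z - w‖ * ‖z - w‖ := by
              simp only [hκ']
              ring
      · refine le_trans ?_ hle
        rw [norm_sub_rev, norm_sub_rev z w]
        exact hone w z hz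
    · exact (hone z w hw).trans hle
  have hlip : ∀ z w, ‖ct (gg h) z - ct (gg h) w‖ ≤ K0 * (5 * M2 + 4 * L2) * A * ‖z - w‖ := by
    intro z w
    refine (hct (gg h) κ' (A * M2) (continuous_gg hh) hgM (fun ζ hζ => gg_zero hζ) hκ'0 hκ'a hκ'i
      hgmod z w).trans ?_
    refine mul_le_mul_of_nonneg_right ?_ (norm_nonneg _)
    rw [mul_assoc]
    refine mul_le_mul_of_nonneg_left ?_ hK0.le
    linarith
  have hctc : Continuous (ct (gg h)) := by
    refine (LipschitzWith.of_dist_le_mul (K := Real.toNNReal (K0 * (5 * M2 + 4 * L2) * A))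
      fun z w => ?_).continuous
    rw [dist_eq_norm, dist_eq_norm, Real.coe_toNNReal _ (by positivity)]
    exact hlip z w
  have hcutn : ∀ z, ‖cut z‖ ≤ 1 := by
    intro z
    rw [cut, Complex.norm_real, Real.norm_of_nonneg (bump.nonneg)]
    exact bump.le_one
  have hC1 : A * M2 ≤ C * A := by
    rw [hC]
    have e1 := mul_nonneg hK0.le hM2
    have e2 := mul_nonneg hK0.le hL2
    nlinarith [mul_nonneg hM2 hA0, mul_nonneg hL3 hA0, mul_nonneg e1 hA0, mul_nonneg e2 hA0]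
  refine ⟨hosc, fun ζ => (hgM ζ).trans hC1, hctc, ?_, ?_⟩
  · intro z
    have h1 : ‖cut z * (h z - h 0)‖ ≤ A := by
      rcases lt_or_ge ‖z‖ 1 with hz | hz
      · rw [norm_mul]
        calc ‖cut z‖ * ‖h z - h 0‖ ≤ 1 * A := by
              gcongr
              · exact hcutn z
              · exact hosc z (by rwa [mem_ball_zero_iff])
          _ = A := one_mul A
      · rw [cut_zero (by linarith), zero_mul, norm_zero]
        exact hA0
    have h2 := norm_ct_le hgM (fun ζ hζ => gg_zero' hζ) z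
    rw [TT]
    refine (norm_sub_le _ _).trans ((add_le_add h1 h2).trans ?_)
    rw [hC]
    have e1 := mul_nonneg hK0.le hM2
    have e2 := mul_nonneg hK0.le hL2
    nlinarith [mul_nonneg hM2 hA0, mul_nonneg hL3 hA0, mul_nonneg e1 hA0, mul_nonneg e2 hA0]
  · intro z w
    have hfin : ∀ x : ℂ, ‖x‖ ≤ L3 * A * ‖z - w‖ →
        ‖x - (ct (gg h) z - ct (gg h) w)‖ ≤ C * A * ‖z - w‖ := by
      intro x hx
      refine (norm_sub_le _ _).trans ((add_le_add hx (hlip z w)).trans ?_)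
      rw [← add_mul]
      refine mul_le_mul_of_nonneg_right ?_ (norm_nonneg _)
      rw [hC]
      nlinarith [mul_nonneg hM2 hA0, mul_nonneg hL3 hA0]
    have hout : ∀ z w : ℂ, 1 ≤ ‖w‖ → ‖cut z * (h z - h 0)‖ ≤ L3 * A * ‖z - w‖ := by
      intro z w hw
      rcases lt_or_ge ‖z‖ 1 with hz | hz
      · rw [norm_mul]
        have h1 := hl3 z w
        rw [cut_zero (show 3 / 4 ≤ ‖w‖ by linarith), sub_zero] at h1
        calc ‖cut z‖ * ‖h z - h 0‖ ≤ (L3 * ‖z - w‖) * A := by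
              gcongr
              exact hosc z (by rwa [mem_ball_zero_iff])
          _ = L3 * A * ‖z - w‖ := by ring
      · rw [cut_zero (show 3 / 4 ≤ ‖z‖ by linarith), zero_mul, norm_zero]
        positivity
    rcases lt_or_ge ‖w‖ 1 with hw | hw
    · rcases lt_or_ge ‖z‖ 1 with hz | hz
      · have hz' : z ∈ ball (0 : ℂ) 1 := by rwa [mem_ball_zero_iff]
        have hw' : w ∈ ball (0 : ℂ) 1 := by rwa [mem_ball_zero_iff]
        refine ⟨bump z, bump.nonneg, bump.le_one, ?_, Or.inr ⟨hz', hw'⟩⟩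
        have h1 : TT h z - TT h w - ((bump z : ℝ) : ℂ) * (h z - h w) =
            (cut z - cut w) * (h w - h 0) - (ct (gg h) z - ct (gg h) w) := by
          rw [TT, TT, cut, cut]
          ring
        rw [h1]
        refine hfin _ ?_
        rw [norm_mul]
        calc ‖cut z - cut w‖ * ‖h w - h 0‖ ≤ (L3 * ‖z - w‖) * A := by
              gcongr
              · exact hl3 z w
              · exact hosc w hw'
          _ = L3 * A * ‖z - w‖ := by ring
      · refine ⟨0, le_rfl, zero_le_one, ?_, Or.inl rfl⟩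
        have h1 : TT h z - TT h w - ((0 : ℝ) : ℂ) * (h z - h w) =
            (-(cut w * (h w - h 0))) - (ct (gg h) z - ct (gg h) w) := by
          rw [TT, TT, cut_zero (show 3 / 4 ≤ ‖z‖ by linarith)]
          push_cast
          ring
        rw [h1]
        refine hfin _ ?_
        rw [norm_neg, norm_sub_rev z w]
        exact hout w z hz
    · refine ⟨0, le_rfl, zero_le_one, ?_, Or.inl rfl⟩
      have h1 : TT h z - TT h w - ((0 : ℝ) : ℂ) * (h z - h w) =
          (cut z * (h z - h 0)) - (ct (gg h) z - ct (gg h) w) := by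
        rw [TT, TT, cut_zero (show 3 / 4 ≤ ‖w‖ by linarith)]
        push_cast
        ring
      rw [h1]
      exact hfin _ (hout z w hw)

/-- the localisation is holomorphic off the exceptional set -/
theorem TT_differentiableAt {K : Set ℂ} (hK : IsClosed K) {h : ℂ → ℂ} {A : ℝ}
    (hh : ContinuousOn h (ball 0 1)) (hd : DifferentiableOn ℂ h (ball 0 1 \ K))
    (hosc : ∀ z ∈ ball (0 : ℂ) 1, ‖h z - h 0‖ ≤ A) {M : ℝ} (hM : ∀ ζ, ‖gg h ζ‖ ≤ M) {z₀ : ℂ}
    (hz₀ : z₀ ∉ K) : DifferentiableAt ℂ (TT h) z₀ := by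
  rcases lt_or_ge ‖z₀‖ 1 with h1 | h1
  · have hopen : IsOpen (ball (0 : ℂ) 1 \ K) := isOpen_ball.sdiff hK
    obtain ⟨R, hR, hsub⟩ := Metric.isOpen_iff.1 hopen z₀ ⟨by rwa [mem_ball_zero_iff], hz₀⟩
    have h3 : ball z₀ (3 * (R / 3)) = ball z₀ R := by
      congr 1
      ring
    refine TT_differentiableAt_inner hh hosc (ρ := R / 3) (by positivity) ?_ ?_
    · rw [h3]
      exact hsub.trans sdiff_subset
    · rw [h3]
      exact hd.mono hsub
  · have h2 : DifferentiableAt ℂ (ct (gg h)) z₀ := by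
      refine ct_differentiableAt (continuous_gg hh).aestronglyMeasurable hM
        (fun ζ hζ => gg_zero' hζ) (ρ := 1 / 16) (by norm_num) fun ζ hζ => ?_
      rw [mem_ball, dist_eq_norm, norm_sub_rev] at hζ
      have h4 := norm_sub_norm_le z₀ ζ
      exact gg_zero (by linarith)
    have h3 : TT h =ᶠ[𝓝 z₀] fun z => -ct (gg h) z := by
      have h4 : (3 / 4 : ℝ) < ‖z₀‖ := by linarith
      filter_upwards [(isOpen_lt continuous_const continuous_norm).mem_nhds h4] with z hz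
      rw [TT, cut_zero (le_of_lt hz), zero_mul, zero_sub]
    exact (h2.neg).congr_of_eventuallyEq h3

/-- **the local theorem in the unit ball** -/
theorem unit_thm : ∃ C : ℝ, 0 < C ∧ ∀ (K : Set ℂ), IsClosed K → CHRemovable K →
    ∀ (h : ℂ → ℂ) (κ : ℝ → ℝ) (A θ : ℝ) (u : ℂ),
    ContinuousOn h (ball 0 1) → DifferentiableOn ℂ h (ball 0 1 \ K) →
    (∀ t, 0 ≤ κ t) → AntitoneOn κ (Ioi 0) →
    IntegrableOn κ (Ioo 0 1) → ∫ t in Ioo 0 1, κ t ≤ A → 0 < A →
    (∀ z ∈ ball (0 : ℂ) 1, ∀ w ∈ ball (0 : ℂ) 1, z ≠ w → ‖h z - h w‖ ≤ κ ‖z - w‖ * ‖z - w‖) →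
    0 < θ → θ ≤ 1 → ‖u‖ = 1 →
    (∀ z ∈ ball (0 : ℂ) 1, ∀ w ∈ ball (0 : ℂ) 1, z ≠ w →
      C * A / θ ≤ ‖(h z - h w) / (z - w)‖ →
      θ < ‖(h z - h w) / (z - w) / (‖(h z - h w) / (z - w)‖ : ℂ) - u‖) →
    DifferentiableOn ℂ h (ball 0 (1 / 2)) := by
  obtain ⟨C, hC, hest⟩ := TT_estimate
  refine ⟨C, hC, ?_⟩
  intro K hK hrem h κ A θ u hh hd hκ0 hκa hκi hA hA0 hmod hθ hθ1 hu hno
  obtain ⟨hosc, hgM, hctc, hTb, hT⟩ := hest h κ A hh hκ0 hκa hκi hA hmod
  have hCA : 0 < C * A := mul_pos hC hA0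
  set Λ : ℝ := 2 * (C * A) / θ with hΛ
  have hΛ0 : 0 < Λ := by positivity
  have hΛθ : Λ * θ = 2 * (C * A) := by
    rw [hΛ]
    field_simp
  have hΛ2 : 2 * (C * A) ≤ Λ := by
    rw [← hΛθ]
    nlinarith
  have hu0 : u ≠ 0 := by
    rw [← norm_pos_iff, hu]
    exact one_pos
  set l : ℂ := Λ * u with hl
  have hln : ‖l‖ = Λ := by
    rw [hl, norm_mul, hu, mul_one, Complex.norm_real, Real.norm_of_nonneg hΛ0.le]
  have hl0 : l ≠ 0 := by
    rw [← norm_pos_iff, hln]
    exact hΛ0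
  set G : ℂ → ℂ := fun z => z - l⁻¹ * TT h z with hG
  have hTc : Continuous (TT h) := by
    unfold TT
    refine Continuous.sub ?_ hctc
    have h1 := continuous_cutoff_mul hh (contDiff_cut (n := 1)).continuous
      fun ζ hζ => cut_zero (le_of_lt hζ)
    exact h1.congr fun ζ => mul_comm _ _
  have hGc : Continuous G := continuous_id.sub (continuous_const.mul hTc)
  have hGinj : Function.Injective G := by
    intro z w hzw
    by_contra hne
    have hzw0 : z - w ≠ 0 := sub_ne_zero.2 hne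
    have hzwn : 0 < ‖z - w‖ := norm_pos_iff.2 hzw0
    have h1 : TT h z - TT h w = l * (z - w) := by
      simp only [hG] at hzw
      have h2 : l * l⁻¹ = 1 := mul_inv_cancel₀ hl0
      linear_combination (-l) * hzw + (TT h w - TT h z) * h2
    obtain ⟨a, ha0, ha1, hle, hor⟩ := hT z w
    set q : ℂ := (h z - h w) / (z - w) with hq
    have hqe : h z - h w = q * (z - w) := by
      rw [hq]
      field_simp
    have h3 : ‖l - a * q‖ ≤ C * A := by
      have h4 : TT h z - TT h w - a * (h z - h w) = (l - a * q) * (z - w) := by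
        rw [h1, hqe]
        ring
      rw [h4, norm_mul] at hle
      exact le_of_mul_le_mul_right hle hzwn
    have h5 : C * A < ‖l‖ := by
      rw [hln]
      linarith
    have ha : 0 < a := by
      rcases ha0.lt_or_eq with h6 | h6
      · exact h6
      · rw [← h6] at h3
        simp only [Complex.ofReal_zero, zero_mul, sub_zero] at h3
        linarith
    obtain ⟨hz, hw⟩ := hor.resolve_left ha.ne'
    have hax : ‖(a : ℂ) * q‖ = a * ‖q‖ := by
      rw [norm_mul, Complex.norm_real, Real.norm_of_nonneg ha0]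
    have h6 : C * A / θ ≤ ‖q‖ := by
      have h7 : ‖l‖ - ‖(a : ℂ) * q‖ ≤ C * A := (norm_sub_norm_le _ _).trans h3
      rw [hln, hax] at h7
      have h8 : a * ‖q‖ ≤ ‖q‖ := mul_le_of_le_one_left (norm_nonneg _) ha1
      rw [div_le_iff₀ hθ]
      nlinarith
    have h7 := hno z hz w hw hne h6
    have h8 := norm_dir_sub_le (x := (a : ℂ) * q) hl0
    have h9 : (a : ℂ) * q / (‖(a : ℂ) * q‖ : ℂ) = q / (‖q‖ : ℂ) := by
      rw [hax]
      push_cast
      have : (a : ℂ) ≠ 0 := by exact_mod_cast ha.ne'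
      rw [mul_div_mul_left _ _ this]
    have h10 : l / (‖l‖ : ℂ) = u := by
      rw [hln, hl]
      have : (Λ : ℂ) ≠ 0 := by exact_mod_cast hΛ0.ne'
      field_simp
    rw [h9, h10, norm_sub_rev ((a : ℂ) * q) l, hln] at h8
    have h11 : 2 * ‖l - a * q‖ / Λ ≤ θ := by
      rw [div_le_iff₀ hΛ0, mul_comm θ, hΛθ]
      linarith
    exact absurd (h8.trans h11) (not_le.2 h7)
  obtain ⟨f, hf⟩ := exists_homeo hGc hGinj (M := ‖l⁻¹‖ * (C * A)) fun z => by
    simp only [hG]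
    rw [sub_sub_cancel_left, norm_neg, norm_mul]
    exact mul_le_mul_of_nonneg_left (hTb z) (norm_nonneg _)
  have hTd : ∀ z, z ∉ K → DifferentiableAt ℂ (TT h) z := fun z hz =>
    TT_differentiableAt hK hh hd hosc hgM hz
  have hfd : Differentiable ℂ f := by
    refine hrem f ?_
    rw [hf]
    intro z hz
    exact (differentiableAt_id.sub ((hTd z hz).const_mul _)).differentiableWithinAt
  rw [hf] at hfd
  have hTd' : Differentiable ℂ (TT h) := by
    have h1 : TT h = fun z => l * (z - G z) := by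
      funext z
      simp only [hG]
      have h2 : l * l⁻¹ = 1 := mul_inv_cancel₀ hl0
      linear_combination (-TT h z) * h2
    rw [h1]
    exact (differentiable_id.sub hfd).const_mul l
  -- the function in the inner ball
  intro z₀ hz₀
  rw [mem_ball_zero_iff] at hz₀
  have hct : DifferentiableAt ℂ (ct (gg h)) z₀ := by
    refine ct_differentiableAt (continuous_gg hh).aestronglyMeasurable hgM
      (fun ζ hζ => gg_zero' hζ) (ρ := (1 / 2 - ‖z₀‖) / 2) (by linarith) fun ζ hζ => ?_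
    rw [mem_ball, dist_eq_norm] at hζ
    have h4 := norm_sub_norm_le ζ z₀
    rw [gg, dbar_cut_inner (by linarith), mul_zero]
  have hloc : h =ᶠ[𝓝 z₀] fun z => TT h z + ct (gg h) z + h 0 := by
    filter_upwards [(isOpen_lt continuous_norm continuous_const).mem_nhds hz₀] with z hz
    rw [TT, cut_one (le_of_lt hz)]
    ring
  exact (((hTd' z₀).add hct).add_const _).congr_of_eventuallyEq hloc |>.differentiableWithinAt

end Pool.Agent.Work.MP_c9b226_an
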